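import Mathlib

set_option autoImplicit false
set_option linter.unusedSectionVars false

namespace Pool.Agent.H595Z.FP

open Classical

theorem abstract_iso {F E : Type*} [NormedAddCommGroup F] [Module ℝ F] [AddCommGroup E]
    [Module ℝ E] (N : E → ℝ) (hN : ∀ y, 0 ≤ N y) (L : ℝ) (hL : 0 ≤ L)
    (P : F →ₗ[ℝ] E) (J : E →ₗ[ℝ] F) (ev od tl : E →ₗ[ℝ] E) (il : E × E →ₗ[ℝ] E)
    (hd : E →ₗ[ℝ] F) (cons : F × E →ₗ[ℝ] E)
    (hP : ∀ v, N (P v) ≤ L * ‖v‖) (hJ : ∀ y, ‖J y‖ ≤ L * N y) (hPJ : ∀ y, P (J y) = y)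
    (hev : ∀ y, N (ev y) ≤ N y) (hod : ∀ y, N (od y) ≤ N y) (htl : ∀ y, N (tl y) ≤ N y)
    (hhd : ∀ y, ‖hd y‖ ≤ N y) (hil : ∀ a b, N (il (a, b)) ≤ N a + N b)
    (hcons : ∀ a b, N (cons (a, b)) ≤ ‖a‖ + N b)
    (h1 : ∀ a b, ev (il (a, b)) = a) (h2 : ∀ a b, od (il (a, b)) = b)
    (h3 : ∀ y, il (ev y, od y) = y)
    (h4 : ∀ a b, hd (cons (a, b)) = a) (h5 : ∀ a b, tl (cons (a, b)) = b)
    (h6 : ∀ y, cons (hd y, tl y) = y) :
    ∃ (e : F ≃ₗ[ℝ] E) (C : ℝ), 0 ≤ C ∧ (∀ v, N (e v) ≤ C * ‖v‖) ∧ ∀ v, ‖v‖ ≤ C * N (e v) := by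
  let Φ : F →ₗ[ℝ] E := cons ∘ₗ LinearMap.prod
    (J ∘ₗ od ∘ₗ P + (LinearMap.id - J ∘ₗ P)) (ev ∘ₗ P)
  let Ψ : E →ₗ[ℝ] F := J ∘ₗ il ∘ₗ LinearMap.prod tl (P ∘ₗ hd) + (hd - J ∘ₗ P ∘ₗ hd)
  have hΦ : ∀ x, Φ x = cons (J (od (P x)) + (x - J (P x)), ev (P x)) := fun x => rfl
  have hΨ : ∀ y, Ψ y = J (il (tl y, P (hd y))) + (hd y - J (P (hd y))) := fun y => rfl
  have hΨΦ : ∀ x, Ψ (Φ x) = x := by
    intro x
    rw [hΨ, hΦ, h4, h5]
    have e1 : P (J (od (P x)) + (x - J (P x))) = od (P x) := by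
      rw [map_add, map_sub, hPJ, hPJ]; abel
    rw [e1, h3]; abel
  have hΦΨ : ∀ y, Φ (Ψ y) = y := by
    intro y
    rw [hΦ, hΨ]
    have e1 : P (J (il (tl y, P (hd y))) + (hd y - J (P (hd y)))) = il (tl y, P (hd y)) := by
      rw [map_add, map_sub, hPJ, hPJ]; abel
    rw [e1, h1, h2]
    have e2 : J (P (hd y)) + (J (il (tl y, P (hd y))) + (hd y - J (P (hd y))) -
        J (il (tl y, P (hd y)))) = hd y := by abel
    rw [e2, h6]
  have bΦ : ∀ x, N (Φ x) ≤ (2 * L ^ 2 + L + 1) * ‖x‖ := by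
    intro x
    rw [hΦ]
    have a1 := hP x
    have a2 : ‖J (od (P x))‖ ≤ L * (L * ‖x‖) :=
      (hJ _).trans (mul_le_mul_of_nonneg_left ((hod _).trans a1) hL)
    have a3 : ‖J (P x)‖ ≤ L * (L * ‖x‖) := (hJ _).trans (mul_le_mul_of_nonneg_left a1 hL)
    have a4 := hev (P x)
    have a5 := hcons (J (od (P x)) + (x - J (P x))) (ev (P x))
    have a6 := norm_add_le (J (od (P x))) (x - J (P x))
    have a7 := norm_sub_le x (J (P x))
    nlinarith
  have bΨ : ∀ y, ‖Ψ y‖ ≤ (2 * L ^ 2 + L + 1) * N y := by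
    intro y
    rw [hΨ]
    have a0 := hhd y
    have a1 : N (P (hd y)) ≤ L * N y := (hP _).trans (mul_le_mul_of_nonneg_left a0 hL)
    have a2 : ‖J (il (tl y, P (hd y)))‖ ≤ L * (N y + L * N y) :=
      (hJ _).trans (mul_le_mul_of_nonneg_left ((hil _ _).trans (add_le_add (htl y) a1)) hL)
    have a3 : ‖J (P (hd y))‖ ≤ L * (L * N y) := (hJ _).trans (mul_le_mul_of_nonneg_left a1 hL)
    have a6 := norm_add_le (J (il (tl y, P (hd y)))) (hd y - J (P (hd y)))
    have a7 := norm_sub_le (hd y) (J (P (hd y)))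
    nlinarith
  refine ⟨LinearEquiv.ofLinear Φ Ψ (LinearMap.ext hΦΨ) (LinearMap.ext hΨΦ), 2 * L ^ 2 + L + 1,
    by positivity, bΦ, fun v => ?_⟩
  have := bΨ (Φ v)
  rw [hΨΦ] at this
  exact this

variable {F : Type*} [NormedAddCommGroup F] [Module ℝ F]

/-- Reindexing along an injection. -/
def reix (E : Submodule ℝ (ℕ → F)) (hE : ∀ y, y ∈ E ↔ Summable fun n => ‖y n‖)
    (g : ℕ → ℕ) (hg : Function.Injective g) : E →ₗ[ℝ] E where
  toFun y := ⟨fun n => y.1 (g n), (hE _).2 (((hE _).1 y.2).comp_injective hg)⟩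
  map_add' _ _ := rfl
  map_smul' _ _ := rfl

theorem reix_le (E : Submodule ℝ (ℕ → F)) (hE : ∀ y, y ∈ E ↔ Summable fun n => ‖y n‖)
    (g : ℕ → ℕ) (hg : Function.Injective g) (y : E) :
    ∑' n, ‖(reix E hE g hg y).1 n‖ ≤ ∑' n, ‖y.1 n‖ :=
  tsum_comp_le_tsum_of_inj ((hE _).1 y.2) (fun _ => norm_nonneg _) hg

theorem il_hasSum (a b : ℕ → F) (ha : Summable fun n => ‖a n‖) (hb : Summable fun n => ‖b n‖) :
    HasSum (fun n => ‖if n % 2 = 0 then a (n / 2) else b (n / 2)‖)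
      (∑' n, ‖a n‖ + ∑' n, ‖b n‖) := by
  apply HasSum.even_add_odd
  · convert ha.hasSum using 3 with k
    simp
  · convert hb.hasSum using 3 with k
    have h1 : (2 * k + 1) % 2 = 1 := by omega
    have h2 : (2 * k + 1) / 2 = k := by omega
    simp [h1, h2]

theorem cons_hasSum (a : F) (b : ℕ → F) (hb : Summable fun n => ‖b n‖) :
    HasSum (fun n => ‖if n = 0 then a else b (n - 1)‖) (‖a‖ + ∑' n, ‖b n‖) := by
  rw [← hasSum_nat_add_iff' 1]
  simpa using hb.hasSum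

variable [CompleteSpace F] [ContinuousConstSMul ℝ F]

theorem pelczynski (E : Submodule ℝ (ℕ → F)) (hE : ∀ y, y ∈ E ↔ Summable fun n => ‖y n‖)
    (J P : ℕ → F →ₗ[ℝ] F) (L : ℝ) (hL : 0 ≤ L) (hJ : ∀ n v, ‖J n v‖ ≤ L * ‖v‖)
    (hP : ∀ (s : Finset ℕ) v, ∑ n ∈ s, ‖P n v‖ ≤ L * ‖v‖)
    (hPJ : ∀ n' n v, P n' (J n v) = if n' = n then v else 0) :
    ∃ (e : F ≃ₗ[ℝ] E) (C : ℝ), 0 ≤ C ∧ (∀ v, ∑' n, ‖(e v).1 n‖ ≤ C * ‖v‖) ∧
      ∀ v, ‖v‖ ≤ C * ∑' n, ‖(e v).1 n‖ := by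
  have hPs : ∀ v, Summable fun n => ‖P n v‖ := fun v =>
    summable_of_sum_le (fun _ => norm_nonneg _) (fun s => hP s v)
  have hJn : ∀ y : E, Summable fun n => ‖J n (y.1 n)‖ := fun y =>
    Summable.of_nonneg_of_le (fun _ => norm_nonneg _) (fun n => hJ n _)
      (((hE _).1 y.2).mul_left L)
  have hJs : ∀ y : E, Summable fun n => J n (y.1 n) := fun y => (hJn y).of_norm
  have hPc : ∀ n, Continuous (P n) := fun n =>
    AddMonoidHomClass.continuous_of_bound _ L fun v => by simpa using hP {n} v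
  let PP : F →ₗ[ℝ] E :=
    { toFun := fun v => ⟨fun n => P n v, (hE _).2 (hPs v)⟩
      map_add' := fun v w => Subtype.ext (funext fun n => map_add (P n) v w)
      map_smul' := fun r v => Subtype.ext (funext fun n => map_smul (P n) r v) }
  let JJ : E →ₗ[ℝ] F :=
    { toFun := fun y => ∑' n, J n (y.1 n)
      map_add' := fun y z => by
        rw [← (hJs y).tsum_add (hJs z)]
        exact tsum_congr fun n => map_add (J n) _ _
      map_smul' := fun r y => by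
        rw [RingHom.id_apply, ← (hJs y).tsum_const_smul r]
        exact tsum_congr fun n => map_smul (J n) r _ }
  let il : E × E →ₗ[ℝ] E :=
    { toFun := fun a => ⟨fun n => if n % 2 = 0 then a.1.1 (n / 2) else a.2.1 (n / 2),
        (hE _).2 (il_hasSum _ _ ((hE _).1 a.1.2) ((hE _).1 a.2.2)).summable⟩
      map_add' := fun a b => Subtype.ext (funext fun n => by
        by_cases h : n % 2 = 0 <;> simp [h])
      map_smul' := fun r a => Subtype.ext (funext fun n => by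
        by_cases h : n % 2 = 0 <;> simp [h]) }
  let cons : F × E →ₗ[ℝ] E :=
    { toFun := fun a => ⟨fun n => if n = 0 then a.1 else a.2.1 (n - 1),
        (hE _).2 (cons_hasSum _ _ ((hE _).1 a.2.2)).summable⟩
      map_add' := fun a b => Subtype.ext (funext fun n => by
        by_cases h : n = 0 <;> simp [h])
      map_smul' := fun r a => Subtype.ext (funext fun n => by
        by_cases h : n = 0 <;> simp [h]) }
  let hd : E →ₗ[ℝ] F := (LinearMap.proj 0) ∘ₗ E.subtype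
  have i1 : Function.Injective fun n : ℕ => 2 * n := fun a b h => by simpa using h
  have i2 : Function.Injective fun n : ℕ => 2 * n + 1 := fun a b h => by simpa using h
  have i3 : Function.Injective fun n : ℕ => n + 1 := fun a b h => by simpa using h
  refine abstract_iso (fun y : E => ∑' n, ‖y.1 n‖) (fun y => tsum_nonneg fun _ => norm_nonneg _)
    L hL PP JJ (reix E hE _ i1) (reix E hE _ i2) (reix E hE _ i3) il hd cons
    (fun v => (hPs v).tsum_le_of_sum_le fun s => hP s v) (fun y => ?_) (fun y => ?_)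
    (reix_le E hE _ i1) (reix_le E hE _ i2) (reix_le E hE _ i3) (fun y => ?_)
    (fun a b => (il_hasSum _ _ ((hE _).1 a.2) ((hE _).1 b.2)).tsum_eq.le)
    (fun a b => (cons_hasSum _ _ ((hE _).1 b.2)).tsum_eq.le)
    (fun a b => ?_) (fun a b => ?_) (fun y => ?_) (fun a b => ?_) (fun a b => ?_) (fun y => ?_)
  · calc ‖JJ y‖ ≤ ∑' n, ‖J n (y.1 n)‖ := norm_tsum_le_tsum_norm (hJn y)
      _ ≤ ∑' n, L * ‖y.1 n‖ :=
        (hJn y).tsum_le_tsum (fun n => hJ n _) (((hE _).1 y.2).mul_left L)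
      _ = _ := tsum_mul_left
  · apply Subtype.ext
    funext n'
    show P n' (∑' n, J n (y.1 n)) = y.1 n'
    have h := ((hJs y).hasSum.map (P n').toAddMonoidHom (hPc n'))
    have h' : HasSum (fun n => if n = n' then y.1 n' else 0) (P n' (∑' n, J n (y.1 n))) := by
      have e : (fun n => if n = n' then y.1 n' else 0) =
          (⇑(P n').toAddMonoidHom ∘ fun n => (J n) (y.1 n)) := by
        funext n
        show _ = P n' (J n (y.1 n))
        rw [hPJ]
        by_cases hn : n = n'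
        · simp [hn]
        · simp [hn, Ne.symm hn]
      rw [e]
      exact h
    exact h'.unique (hasSum_ite_eq n' (y.1 n'))
  · exact ((hE _).1 y.2).le_tsum 0 fun _ _ => norm_nonneg _
  · apply Subtype.ext
    funext n
    show (if (2 * n) % 2 = 0 then a.1 (2 * n / 2) else b.1 (2 * n / 2)) = a.1 n
    simp
  · apply Subtype.ext
    funext n
    show (if (2 * n + 1) % 2 = 0 then a.1 ((2 * n + 1) / 2) else b.1 ((2 * n + 1) / 2)) = b.1 n
    have h1 : (2 * n + 1) % 2 = 1 := by omega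
    have h2 : (2 * n + 1) / 2 = n := by omega
    simp [h1, h2]
  · apply Subtype.ext
    funext n
    show (if n % 2 = 0 then y.1 (2 * (n / 2)) else y.1 (2 * (n / 2) + 1)) = y.1 n
    split_ifs with h
    · exact congrArg y.1 (by omega)
    · exact congrArg y.1 (by omega)
  · rfl
  · apply Subtype.ext
    funext n
    show (if n + 1 = 0 then a else b.1 (n + 1 - 1)) = b.1 n
    simp
  · apply Subtype.ext
    funext n
    show (if n = 0 then y.1 0 else y.1 (n - 1 + 1)) = y.1 n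
    split_ifs with h
    · rw [h]
    · exact congrArg y.1 (by omega)

end Pool.Agent.H595Z.FP
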