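import Mathlib

set_option autoImplicit false

namespace Pool.Agent.H595Z.FP

open Classical

variable {M : Type*} [MetricSpace M]

/-- The linear span of the Dirac vectors: the free real vector space on `M` minus the base point. -/
def Pre (_p : ℝ) (x0 : M) : Type _ := {x : M // x ≠ x0} →₀ ℝ

noncomputable instance (p : ℝ) (x0 : M) : AddCommGroup (Pre p x0) :=
  inferInstanceAs (AddCommGroup ({x : M // x ≠ x0} →₀ ℝ))

noncomputable instance (p : ℝ) (x0 : M) : Module ℝ (Pre p x0) :=
  inferInstanceAs (Module ℝ ({x : M // x ≠ x0} →₀ ℝ))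

/-- The Dirac vector of `x`; it is zero at the base point. -/
noncomputable def dirac (p : ℝ) (x0 x : M) : Pre p x0 :=
  if h : x = x0 then 0 else (Finsupp.single ⟨x, h⟩ 1 : {x : M // x ≠ x0} →₀ ℝ)

/-- The vector `∑ a (δ x - δ y)` of a finite list of triples `(a, x, y)`. -/
noncomputable def val (p : ℝ) (x0 : M) (l : List (ℝ × M × M)) : Pre p x0 :=
  (l.map fun t => t.1 • (dirac p x0 t.2.1 - dirac p x0 t.2.2)).sum

/-- The number `∑ (|a| d(x, y)) ^ p` of a finite list of triples `(a, x, y)`. -/
noncomputable def cost (p : ℝ) (l : List (ℝ × M × M)) : ℝ :=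
  (l.map fun t => (|t.1| * dist t.2.1 t.2.2) ^ p).sum

/-- The `p`-th power of the free `p`-norm on the span of the Dirac vectors. -/
noncomputable def normPow (p : ℝ) (x0 : M) (v : Pre p x0) : ℝ :=
  sInf {c : ℝ | ∃ l : List (ℝ × M × M), val p x0 l = v ∧ cost p l = c}

theorem cost_nonneg (p : ℝ) (l : List (ℝ × M × M)) : 0 ≤ cost p l := by
  unfold cost
  apply List.sum_nonneg
  intro c hc
  obtain ⟨t, -, rfl⟩ := List.mem_map.1 hc
  positivity

theorem val_append (p : ℝ) (x0 : M) (l l' : List (ℝ × M × M)) :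
    val p x0 (l ++ l') = val p x0 l + val p x0 l' := by
  simp [val]

theorem cost_append (p : ℝ) (l l' : List (ℝ × M × M)) :
    cost p (l ++ l') = cost p l + cost p l' := by
  simp [cost]

theorem val_smul (p : ℝ) (x0 : M) (r : ℝ) (l : List (ℝ × M × M)) :
    val p x0 (l.map fun t => (r * t.1, t.2)) = r • val p x0 l := by
  induction l with
  | nil => simp [val]
  | cons t l ih =>
    simp only [val, List.map_cons, List.sum_cons, smul_add] at ih ⊢
    rw [ih, mul_smul]

theorem cost_smul (p : ℝ) (r : ℝ) (l : List (ℝ × M × M)) :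
    cost p (l.map fun t => (r * t.1, t.2)) = |r| ^ p * cost p l := by
  induction l with
  | nil => simp [cost]
  | cons t l ih =>
    simp only [cost, List.map_cons, List.sum_cons, mul_add] at ih ⊢
    rw [ih, abs_mul, mul_assoc, Real.mul_rpow (abs_nonneg _) (by positivity)]

theorem dirac_base (p : ℝ) (x0 : M) : dirac p x0 x0 = 0 := by
  simp [dirac]

theorem exists_val (p : ℝ) (x0 : M) (v : Pre p x0) : ∃ l, val p x0 l = v := by
  induction v using Finsupp.induction_linear with
  | zero => exact ⟨[], by simp [val]; rfl⟩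
  | add f g hf hg =>
    obtain ⟨l, hl⟩ := hf
    obtain ⟨l', hl'⟩ := hg
    exact ⟨l ++ l', by rw [val_append, hl, hl']; rfl⟩
  | single x a =>
    refine ⟨[(a, x.1, x0)], ?_⟩
    simp only [val, List.map_cons, List.map_nil, List.sum_cons, List.sum_nil, add_zero,
      dirac_base, sub_zero]
    unfold dirac
    rw [dif_neg x.2]
    show a • (Finsupp.single x (1 : ℝ)) = Finsupp.single x a
    simp

theorem normPow_le (p : ℝ) (x0 : M) (l : List (ℝ × M × M)) :
    normPow p x0 (val p x0 l) ≤ cost p l := by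
  apply csInf_le
  · exact ⟨0, by rintro c ⟨l, -, rfl⟩; exact cost_nonneg p l⟩
  · exact ⟨l, rfl, rfl⟩

theorem le_normPow (p : ℝ) (x0 : M) (v : Pre p x0) (c : ℝ)
    (h : ∀ l, val p x0 l = v → c ≤ cost p l) : c ≤ normPow p x0 v := by
  apply le_csInf
  · obtain ⟨l, hl⟩ := exists_val p x0 v
    exact ⟨_, l, hl, rfl⟩
  · rintro c ⟨l, hl, rfl⟩
    exact h l hl

theorem normPow_nonneg (p : ℝ) (x0 : M) (v : Pre p x0) : 0 ≤ normPow p x0 v :=
  le_normPow p x0 v 0 fun l _ => cost_nonneg p l

theorem le_mul_normPow (p : ℝ) (x0 : M) (v : Pre p x0) (c L : ℝ) (hL : 0 ≤ L)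
    (h : ∀ l, val p x0 l = v → c ≤ L * cost p l) : c ≤ L * normPow p x0 v := by
  rcases hL.eq_or_lt with rfl | hL
  · obtain ⟨l, hl⟩ := exists_val p x0 v
    simpa using h l hl
  · rw [← div_le_iff₀' hL]
    exact le_normPow p x0 v _ fun l hl => (div_le_iff₀' hL).2 (h l hl)

theorem normPow_smul_le (p : ℝ) (x0 : M) (r : ℝ) (v : Pre p x0) :
    normPow p x0 (r • v) ≤ |r| ^ p * normPow p x0 v := by
  apply le_mul_normPow p x0 v _ _ (by positivity)
  rintro l rfl
  rw [← val_smul, ← cost_smul]
  exact normPow_le p x0 _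

theorem normPow_add_le (p : ℝ) (x0 : M) (v w : Pre p x0) :
    normPow p x0 (v + w) ≤ normPow p x0 v + normPow p x0 w := by
  rw [← sub_le_iff_le_add]
  apply le_normPow
  rintro l rfl
  rw [sub_le_iff_le_add, ← sub_le_iff_le_add']
  apply le_normPow
  rintro l' rfl
  rw [sub_le_iff_le_add', ← val_append, ← cost_append]
  exact normPow_le p x0 _

theorem normPow_zero (p : ℝ) (x0 : M) : normPow p x0 0 = 0 :=
  le_antisymm (by simpa [val, cost] using normPow_le p x0 []) (normPow_nonneg p x0 0)

theorem normPow_neg (p : ℝ) (x0 : M) (v : Pre p x0) : normPow p x0 (-v) = normPow p x0 v := by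
  have h : ∀ w : Pre p x0, normPow p x0 (-w) ≤ normPow p x0 w := fun w => by
    simpa using normPow_smul_le p x0 (-1) w
  exact le_antisymm (h v) (by simpa using h (-v))

/-- The span of the Dirac vectors with the invariant distance `normPow (v - w)`. -/
noncomputable instance (p : ℝ) (x0 : M) : SeminormedAddCommGroup (Pre p x0) :=
  AddGroupSeminorm.toSeminormedAddCommGroup
    { toFun := normPow p x0
      map_zero' := normPow_zero p x0
      add_le' := normPow_add_le p x0
      neg' := normPow_neg p x0 }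

theorem norm_pre (p : ℝ) (x0 : M) (v : Pre p x0) : ‖v‖ = normPow p x0 v := rfl

instance (p : ℝ) (x0 : M) : UniformContinuousConstSMul ℝ (Pre p x0) where
  uniformContinuous_const_smul r := by
    have h : LipschitzWith (Real.toNNReal (|r| ^ p)) (fun v : Pre p x0 => r • v) := by
      apply LipschitzWith.of_dist_le_mul
      intro v w
      rw [dist_eq_norm, dist_eq_norm, ← smul_sub, Real.coe_toNNReal _ (by positivity)]
      exact normPow_smul_le p x0 r _
    exact h.uniformContinuous

/-- The Lipschitz free `p`-space: the completion of the span of the Dirac vectors. Its Mathlib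
norm is the `p`-th power of the free `p`-norm. -/
abbrev Free (p : ℝ) (x0 : M) : Type _ := UniformSpace.Completion (Pre p x0)

/-- The `p`-norm of the Lipschitz free `p`-space. -/
noncomputable def pNorm (p : ℝ) (x0 : M) (v : Free p x0) : ℝ := ‖v‖ ^ (1 / p)

theorem pNorm_rpow (p : ℝ) (hp : 0 < p) (x0 : M) (v : Free p x0) : pNorm p x0 v ^ p = ‖v‖ := by
  unfold pNorm
  rw [← Real.rpow_mul (norm_nonneg _), one_div_mul_cancel hp.ne', Real.rpow_one]

theorem norm_smul_le_free (p : ℝ) (x0 : M) (r : ℝ) (v : Free p x0) :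
    ‖r • v‖ ≤ |r| ^ p * ‖v‖ := by
  induction v using UniformSpace.Completion.induction_on with
  | hp =>
    exact isClosed_le (continuous_norm.comp (continuous_const_smul r))
      (continuous_const.mul continuous_norm)
  | ih v =>
    rw [← UniformSpace.Completion.coe_smul, UniformSpace.Completion.norm_coe,
      UniformSpace.Completion.norm_coe]
    exact normPow_smul_le p x0 r v

/-- The space `ℓ_p(F_p(M))`: sequences whose `p`-norms are `p`-summable. -/
noncomputable def ellP (p : ℝ) (hp : 0 < p) (x0 : M) : Submodule ℝ (ℕ → Free p x0) where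
  carrier := {y | Summable fun n => pNorm p x0 (y n) ^ p}
  zero_mem' := by
    simp only [Set.mem_setOf_eq, pNorm_rpow p hp]
    simpa using summable_zero
  add_mem' := by
    intro y z hy hz
    simp only [Set.mem_setOf_eq, pNorm_rpow p hp] at hy hz ⊢
    exact Summable.of_nonneg_of_le (fun n => norm_nonneg _) (fun n => norm_add_le _ _) (hy.add hz)
  smul_mem' := by
    intro r y hy
    simp only [Set.mem_setOf_eq, pNorm_rpow p hp] at hy ⊢
    exact Summable.of_nonneg_of_le (fun n => norm_nonneg _)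
      (fun n => norm_smul_le_free p x0 r _) (hy.mul_left _)

/-- The `p`-norm of `ℓ_p(F_p(M))`. -/
noncomputable def ellNorm (p : ℝ) (x0 : M) (y : ℕ → Free p x0) : ℝ :=
  (∑' n, pNorm p x0 (y n) ^ p) ^ (1 / p)

/-- `F_p(M)` is linearly isomorphic to `ℓ_p(F_p(M))`: there is a linear injection into the
sequence space whose range is `ℓ_p(F_p(M))`, bounded and with bounded inverse. -/
def IsoToEllSum (p : ℝ) (x0 : M) : Prop :=
  ∃ (e : Free p x0 → ℕ → Free p x0) (C : ℝ), IsLinearMap ℝ e ∧ Function.Injective e ∧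
    Set.range e = {y | Summable fun n => pNorm p x0 (y n) ^ p} ∧
    (∀ v, ellNorm p x0 (e v) ≤ C * pNorm p x0 v) ∧ ∀ v, pNorm p x0 v ≤ C * ellNorm p x0 (e v)

/-- A net: uniformly discrete and coarsely dense. -/
def IsNet {X : Type*} [NormedAddCommGroup X] (N : Set X) : Prop :=
  ∃ a b : ℝ, 0 < a ∧ a ≤ b ∧ (∀ x ∈ N, ∀ y ∈ N, x ≠ y → a ≤ ‖x - y‖) ∧
    ∀ z : X, ∃ y ∈ N, ‖z - y‖ ≤ b

end Pool.Agent.H595Z.FP
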