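import Mathlib
import Pool.Agent.H595Z.FPDefs

set_option autoImplicit false
set_option linter.unusedSectionVars false

namespace Pool.Agent.H595Z.FP

open Classical

variable {M : Type*} [MetricSpace M]

noncomputable def delta (p : ℝ) (x0 x : M) : Free p x0 := (dirac p x0 x : Pre p x0)

theorem delta_base (p : ℝ) (x0 : M) : delta p x0 x0 = 0 := by
  unfold delta
  rw [dirac_base]
  exact UniformSpace.Completion.coe_zero

theorem norm_delta_sub (p : ℝ) (x0 x y : M) :
    ‖delta p x0 x - delta p x0 y‖ ≤ dist x y ^ p := by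
  unfold delta
  rw [← UniformSpace.Completion.coe_sub, UniformSpace.Completion.norm_coe, norm_pre]
  have h := normPow_le p x0 [(1, x, y)]
  simpa [val, cost] using h

theorem coe_val (p : ℝ) (x0 : M) (l : List (ℝ × M × M)) :
    ((val p x0 l : Pre p x0) : Free p x0) =
      (l.map fun t => t.1 • (delta p x0 t.2.1 - delta p x0 t.2.2)).sum := by
  induction l with
  | nil => simpa [val] using UniformSpace.Completion.coe_zero
  | cons t l ih =>
    simp only [val, List.map_cons, List.sum_cons] at ih ⊢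
    rw [UniformSpace.Completion.coe_add, ih, UniformSpace.Completion.coe_smul,
      UniformSpace.Completion.coe_sub]
    rfl

variable {G : Type*} [NormedAddCommGroup G] [Module ℝ G]

theorem ext_lin (p : ℝ) (x0 : M) (T S : Free p x0 →ₗ[ℝ] G) (hT : Continuous T)
    (hS : Continuous S) (h : ∀ x, T (delta p x0 x) = S (delta p x0 x)) : T = S := by
  ext v
  induction v using UniformSpace.Completion.induction_on with
  | hp => exact isClosed_eq hT hS
  | ih v =>
    obtain ⟨l, rfl⟩ := exists_val p x0 v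
    rw [coe_val]
    induction l with
    | nil => simp
    | cons t l ih =>
      simp only [List.map_cons, List.sum_cons, map_add, map_smul, map_sub, h, ih]

noncomputable def preLin (p : ℝ) (x0 : M) (f : M → G) : Pre p x0 →ₗ[ℝ] G :=
  Finsupp.linearCombination ℝ (fun x : {x : M // x ≠ x0} => f x.1)

theorem preLin_dirac (p : ℝ) (x0 : M) (f : M → G) (hf : f x0 = 0) (x : M) :
    preLin p x0 f (dirac p x0 x) = f x := by
  unfold dirac
  split_ifs with h
  · rw [h, hf, map_zero]
  · exact (Finsupp.linearCombination_single ℝ (1 : ℝ) (⟨x, h⟩ : {x : M // x ≠ x0})).trans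
      (one_smul _ _)

theorem preLin_bound (p : ℝ) (x0 : M) (hG : ∀ (r : ℝ) (v : G), ‖r • v‖ ≤ |r| ^ p * ‖v‖)
    {ι : Type*} (s : Finset ι) (f : ι → M → G) (hf0 : ∀ n, f n x0 = 0) (L : ℝ) (hL : 0 ≤ L)
    (hf : ∀ x y, ∑ n ∈ s, ‖f n x - f n y‖ ≤ L * dist x y ^ p) (v : Pre p x0) :
    ∑ n ∈ s, ‖preLin p x0 (f n) v‖ ≤ L * normPow p x0 v := by
  apply le_mul_normPow p x0 v _ _ hL
  rintro l rfl
  induction l with
  | nil => simp [val, cost]
  | cons t l ih =>
    simp only [val, cost, List.map_cons, List.sum_cons, map_add, map_smul, map_sub,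
      preLin_dirac p x0 _ (hf0 _)] at ih ⊢
    calc _ ≤ ∑ n ∈ s, (|t.1| ^ p * ‖f n t.2.1 - f n t.2.2‖ + ‖preLin p x0 (f n)
            (List.map (fun t : ℝ × M × M => t.1 • (dirac p x0 t.2.1 - dirac p x0 t.2.2)) l).sum‖) :=
          Finset.sum_le_sum fun n _ => (norm_add_le _ _).trans (add_le_add (hG _ _) le_rfl)
      _ ≤ _ := by
          rw [Finset.sum_add_distrib, ← Finset.mul_sum, mul_add,
            Real.mul_rpow (abs_nonneg _) dist_nonneg]
          apply add_le_add _ ih
          have h1 : 0 ≤ |t.1| ^ p := by positivity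
          calc _ ≤ |t.1| ^ p * (L * dist t.2.1 t.2.2 ^ p) :=
                mul_le_mul_of_nonneg_left (hf _ _) h1
            _ = _ := by ring

variable [CompleteSpace G] [ContinuousConstSMul ℝ G]

theorem exists_extension (p : ℝ) (x0 : M) (T : Pre p x0 →ₗ[ℝ] G) (hT : Continuous T) :
    ∃ S : Free p x0 →ₗ[ℝ] G, Continuous S ∧ ∀ v : Pre p x0, S (v : Free p x0) = T v := by
  let A : Free p x0 →+ G := T.toAddMonoidHom.extension hT
  have hA : Continuous A := T.toAddMonoidHom.continuous_extension hT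
  have hAv : ∀ v : Pre p x0, A (v : Free p x0) = T v := fun v =>
    T.toAddMonoidHom.extension_coe hT v
  refine ⟨{ toFun := A, map_add' := A.map_add, map_smul' := ?_ }, hA, hAv⟩
  intro r v
  induction v using UniformSpace.Completion.induction_on with
  | hp => exact isClosed_eq (hA.comp (continuous_const_smul r)) (hA.const_smul r)
  | ih v =>
    rw [← UniformSpace.Completion.coe_smul, hAv, hAv, map_smul]
    rfl

theorem exists_ext (p : ℝ) (x0 : M) (hG : ∀ (r : ℝ) (v : G), ‖r • v‖ ≤ |r| ^ p * ‖v‖)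
    {ι : Type*} (f : ι → M → G) (hf0 : ∀ n, f n x0 = 0) (L : ℝ) (hL : 0 ≤ L)
    (hf : ∀ (s : Finset ι) x y, ∑ n ∈ s, ‖f n x - f n y‖ ≤ L * dist x y ^ p) :
    ∃ T : ι → (Free p x0 →ₗ[ℝ] G), (∀ n, Continuous (T n)) ∧
      (∀ n x, T n (delta p x0 x) = f n x) ∧
      ∀ (s : Finset ι) v, ∑ n ∈ s, ‖T n v‖ ≤ L * ‖v‖ := by
  have hb := fun s => preLin_bound p x0 hG s f hf0 L hL (hf s)
  have hc : ∀ n, Continuous (preLin p x0 (f n)) := fun n =>
    AddMonoidHomClass.continuous_of_bound _ L fun v => by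
      simpa [norm_pre] using hb {n} v
  choose T hT hTv using fun n => exists_extension p x0 (preLin p x0 (f n)) (hc n)
  refine ⟨T, hT, fun n x => ?_, fun s v => ?_⟩
  · unfold delta
    rw [hTv, preLin_dirac p x0 _ (hf0 n)]
  · induction v using UniformSpace.Completion.induction_on with
    | hp =>
      exact isClosed_le (continuous_finset_sum _ fun n _ => continuous_norm.comp (hT n))
        (continuous_const.mul continuous_norm)
    | ih v =>
      simp only [hTv, UniformSpace.Completion.norm_coe, norm_pre]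
      exact hb s v

theorem exists_ext1 (p : ℝ) (x0 : M) (hG : ∀ (r : ℝ) (v : G), ‖r • v‖ ≤ |r| ^ p * ‖v‖)
    (f : M → G) (hf0 : f x0 = 0) (L : ℝ) (hL : 0 ≤ L)
    (hf : ∀ x y, ‖f x - f y‖ ≤ L * dist x y ^ p) :
    ∃ T : Free p x0 →ₗ[ℝ] G, Continuous T ∧
      (∀ x, T (delta p x0 x) = f x) ∧ ∀ v, ‖T v‖ ≤ L * ‖v‖ := by
  obtain ⟨T, h1, h2, h3⟩ := exists_ext p x0 hG (fun _ : Unit => f) (fun _ => hf0) L hL
    (fun s x y => by
      rcases s.eq_empty_or_nonempty with rfl | hs
      · simp only [Finset.sum_empty]; positivity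
      · have : s = {()} := by
          ext u
          obtain ⟨w, hw⟩ := hs
          simpa using hw
        rw [this]
        simpa using hf x y)
  exact ⟨T (), h1 (), h2 (), fun v => by simpa using h3 {()} v⟩

end Pool.Agent.H595Z.FP
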