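import Mathlib
import Pool.Agent.H595Z.FPExt
import Pool.Agent.H595Z.FPAbs

set_option autoImplicit false
set_option linter.unusedSectionVars false

namespace Pool.Agent.H595Z.FP

open Classical

variable {M : Type*} [MetricSpace M]
variable {G : Type*} [NormedAddCommGroup G] [Module ℝ G]

theorem cutoff (p : ℝ) (hp : 0 < p) (hG : ∀ (r : ℝ) (v : G), ‖r • v‖ ≤ |r| ^ p * ‖v‖)
    (ψ : M → ℝ) (g : M → G) (R A B : ℝ) (hR : 0 < R) (hA : 0 ≤ A) (hB : 0 ≤ B)
    (h1 : ∀ x, |ψ x| ≤ 1) (h2 : ∀ x y, |ψ x - ψ y| ≤ A * dist x y / R)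
    (h3 : ∀ x y, ‖g x - g y‖ ≤ (B * dist x y) ^ p) (h4 : ∀ x, ψ x ≠ 0 → ‖g x‖ ≤ (B * R) ^ p)
    (x y : M) : ‖ψ x • g x - ψ y • g y‖ ≤ (B ^ p + (A * B) ^ p) * dist x y ^ p := by
  have key : ∀ x y : M, ψ x ≠ 0 →
      ‖ψ x • g x - ψ y • g y‖ ≤ (B ^ p + (A * B) ^ p) * dist x y ^ p := by
    intro x y hx
    have e : ψ x • g x - ψ y • g y = ψ y • (g x - g y) + (ψ x - ψ y) • g x := by
      rw [smul_sub, sub_smul]; abel
    rw [e, add_mul]
    refine (norm_add_le _ _).trans (add_le_add ?_ ?_)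
    · refine (hG _ _).trans ?_
      have a1 : |ψ y| ^ p ≤ 1 := Real.rpow_le_one (abs_nonneg _) (h1 y) hp.le
      rw [← Real.mul_rpow hB dist_nonneg]
      calc _ ≤ 1 * ‖g x - g y‖ := mul_le_mul_of_nonneg_right a1 (norm_nonneg _)
        _ ≤ _ := by rw [one_mul]; exact h3 x y
    · refine (hG _ _).trans ?_
      have a1 : |ψ x - ψ y| ^ p ≤ (A * dist x y / R) ^ p :=
        Real.rpow_le_rpow (abs_nonneg _) (h2 x y) hp.le
      calc _ ≤ (A * dist x y / R) ^ p * (B * R) ^ p :=
            mul_le_mul a1 (h4 x hx) (norm_nonneg _) (by positivity)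
        _ = _ := by
            rw [← Real.mul_rpow (by positivity) (by positivity),
              ← Real.mul_rpow (by positivity) (by positivity)]
            congr 1
            field_simp
  by_cases hx : ψ x = 0
  · by_cases hy : ψ y = 0
    · rw [hx, hy, zero_smul, zero_smul, sub_zero, norm_zero]
      positivity
    · rw [norm_sub_rev, dist_comm]
      exact key y x hy
  · exact key x y hx

theorem local_sum (g : ℕ → M → G) (S : M → Finset ℕ) (hS : ∀ x, (S x).card ≤ 2)
    (hg0 : ∀ x k, k ∉ S x → g k x = 0) (c : ℝ) (hc : 0 ≤ c) (x y : M)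
    (hg : ∀ k, ‖g k x - g k y‖ ≤ c) (col : ℕ → ℕ) (s : Finset ℕ) :
    ∑ n ∈ s, ‖(∑ k ∈ S x, if col k = n then g k x else 0) -
      ∑ k ∈ S y, if col k = n then g k y else 0‖ ≤ 4 * c := by
  set T := S x ∪ S y with hT
  have hx : ∀ n, (∑ k ∈ S x, if col k = n then g k x else 0) =
      ∑ k ∈ T, if col k = n then g k x else 0 := fun n =>
    Finset.sum_subset Finset.subset_union_left fun k _ hk => by simp [hg0 x k hk]
  have hy : ∀ n, (∑ k ∈ S y, if col k = n then g k y else 0) =
      ∑ k ∈ T, if col k = n then g k y else 0 := fun n =>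
    Finset.sum_subset Finset.subset_union_right fun k _ hk => by simp [hg0 y k hk]
  have hcard : (T.card : ℝ) ≤ 4 := by
    have : T.card ≤ (S x).card + (S y).card := Finset.card_union_le (S x) (S y)
    have h1 := hS x
    have h2 := hS y
    have : T.card ≤ 4 := by omega
    exact_mod_cast this
  calc _ ≤ ∑ n ∈ s, ∑ k ∈ T, if col k = n then c else 0 := by
        refine Finset.sum_le_sum fun n _ => ?_
        rw [hx, hy, ← Finset.sum_sub_distrib]
        refine (norm_sum_le _ _).trans (Finset.sum_le_sum fun k _ => ?_)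
        split_ifs
        · exact hg k
        · simp
    _ = ∑ k ∈ T, ∑ n ∈ s, if col k = n then c else 0 := Finset.sum_comm
    _ ≤ ∑ k ∈ T, c := by
        refine Finset.sum_le_sum fun k _ => ?_
        rw [Finset.sum_ite_eq]
        split_ifs
        · exact le_rfl
        · exact hc
    _ ≤ 4 * c := by
        rw [Finset.sum_const, nsmul_eq_mul]
        exact mul_le_mul_of_nonneg_right hcard hc

/-- The cutoff profile. -/
noncomputable def th (s : ℝ) : ℝ := max 0 (min 1 (2 - s))

theorem th_nonneg (s : ℝ) : 0 ≤ th s := le_max_left _ _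

theorem th_le_one (s : ℝ) : th s ≤ 1 := max_le zero_le_one (min_le_left _ _)

theorem th_one {s : ℝ} (h : s ≤ 1) : th s = 1 := by
  unfold th
  rw [min_eq_left (by linarith), max_eq_right zero_le_one]

theorem th_zero {s : ℝ} (h : 2 ≤ s) : th s = 0 := by
  unfold th
  exact max_eq_left ((min_le_right _ _).trans (by linarith))

theorem th_lip (s t : ℝ) : |th s - th t| ≤ |s - t| := by
  unfold th
  refine (abs_max_sub_max_le_max _ _ _ _).trans (max_le (by simp) ?_)
  refine (abs_min_sub_min_le_max _ _ _ _).trans (max_le (by simp) ?_)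
  rw [show (2 - s) - (2 - t) = t - s by ring, abs_sub_comm]

theorem th_dist (x y z : M) (R : ℝ) (hR : 0 < R) :
    |th (dist x z / R) - th (dist y z / R)| ≤ dist x y / R := by
  refine (th_lip _ _).trans ?_
  rw [← sub_div, abs_div, abs_of_pos hR]
  exact div_le_div_of_nonneg_right (abs_dist_sub_le x y z) hR.le

/-- The dyadic partition of unity. -/
noncomputable def ps : ℕ → ℝ → ℝ
  | 0, t => th (t / 2 ^ 0)
  | k + 1, t => th (t / 2 ^ (k + 1)) - th (t / 2 ^ k)

theorem ps_abs (k : ℕ) (t : ℝ) : |ps k t| ≤ 1 := by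
  cases k with
  | zero => rw [ps, abs_of_nonneg (th_nonneg _)]; exact th_le_one _
  | succ k =>
    rw [ps, abs_le]
    constructor
    · linarith [th_nonneg (t / 2 ^ (k + 1)), th_le_one (t / 2 ^ k)]
    · linarith [th_le_one (t / 2 ^ (k + 1)), th_nonneg (t / 2 ^ k)]

theorem ps_sum (K : ℕ) (t : ℝ) : ∑ k ∈ Finset.range (K + 1), ps k t = th (t / 2 ^ K) := by
  induction K with
  | zero => simp [ps]
  | succ K ih => rw [Finset.sum_range_succ, ih, ps]; ring

theorem ps_upper (k : ℕ) (t : ℝ) (h : 2 ^ (k + 1) ≤ t) : ps k t = 0 := by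
  have h2 : ∀ j, j ≤ k → th (t / 2 ^ j) = 0 := fun j hj => by
    apply th_zero
    rw [le_div_iff₀ (by positivity)]
    calc (2 : ℝ) * 2 ^ j = 2 ^ (j + 1) := by ring
      _ ≤ 2 ^ (k + 1) := pow_le_pow_right₀ (by norm_num) (by omega)
      _ ≤ t := h
  cases k with
  | zero => rw [ps]; exact h2 0 le_rfl
  | succ k => rw [ps, h2 _ le_rfl, h2 _ (by omega), sub_zero]

theorem ps_lower (k : ℕ) (t : ℝ) (h : t ≤ 2 ^ k) : ps (k + 1) t = 0 := by
  have h2 : ∀ j, k ≤ j → th (t / 2 ^ j) = 1 := fun j hj => by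
    apply th_one
    rw [div_le_one (by positivity)]
    exact h.trans (pow_le_pow_right₀ (by norm_num) hj)
  rw [ps, h2 _ le_rfl, h2 _ (by omega), sub_self]

theorem ps_lip (k : ℕ) (x y z : M) :
    |ps k (dist x z) - ps k (dist y z)| ≤ 3 * dist x y / 2 ^ k := by
  have hd : 0 ≤ dist x y := dist_nonneg
  cases k with
  | zero =>
    have := th_dist x y z (2 ^ 0) (by positivity)
    simp only [ps, pow_zero, div_one] at this ⊢
    linarith
  | succ k =>
    have h1 := th_dist x y z (2 ^ (k + 1)) (by positivity)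
    have h2 := th_dist x y z (2 ^ k) (by positivity)
    have e : 3 * dist x y / 2 ^ (k + 1) = dist x y / 2 ^ (k + 1) + dist x y / 2 ^ k := by
      field_simp; ring
    rw [e]
    simp only [ps]
    rw [abs_le] at h1 h2 ⊢
    constructor <;> linarith [h1.1, h1.2, h2.1, h2.2]

theorem exists_supp (t : ℝ) : ∃ S : Finset ℕ, S.card ≤ 2 ∧ (∀ k, k ∉ S → ps k t = 0) ∧
    ∑ k ∈ S, ps k t = 1 := by
  have hex : ∃ K : ℕ, t ≤ 2 ^ K := by
    obtain ⟨K, hK⟩ := pow_unbounded_of_one_lt t (show (1 : ℝ) < 2 by norm_num)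
    exact ⟨K, hK.le⟩
  set K := Nat.find hex with hK
  have h1 : t ≤ 2 ^ K := Nat.find_spec hex
  have hz : ∀ k, k ∉ ({K - 1, K} : Finset ℕ) → ps k t = 0 := by
    intro k hk
    simp only [Finset.mem_insert, Finset.mem_singleton, not_or] at hk
    rcases lt_or_gt_of_ne hk.2 with h | h
    · apply ps_upper
      have : ¬ t ≤ 2 ^ (k + 1) := Nat.find_min hex (by omega)
      exact (not_le.1 this).le
    · obtain ⟨j, rfl⟩ : ∃ j, k = j + 1 := ⟨k - 1, by omega⟩
      apply ps_lower
      exact h1.trans (pow_le_pow_right₀ (by norm_num) (by omega))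
  refine ⟨{K - 1, K}, Finset.card_le_two, hz, ?_⟩
  have h3 : ∑ k ∈ ({K - 1, K} : Finset ℕ), ps k t = ∑ k ∈ Finset.range (K + 1), ps k t := by
    apply Finset.sum_subset
    · intro k hk
      simp only [Finset.mem_insert, Finset.mem_singleton] at hk
      rw [Finset.mem_range]
      omega
    · intro k _ hk
      exact hz k hk
  rw [h3, ps_sum]
  apply th_one
  rwa [div_le_one (by positivity)]

theorem iso_of_data (p : ℝ) (hp : 0 < p) (x0 : M) (i r : ℕ → M → M) (χ : ℕ → M → ℝ)
    (R : ℕ → ℝ) (B : ℝ) (hB : 0 ≤ B) (hR : ∀ m, 0 < R m)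
    (hi : ∀ m x y, dist (i m x) (i m y) ≤ B * dist x y)
    (hr : ∀ m x y, dist (r m x) (r m y) ≤ B * dist x y)
    (hri : ∀ m x, r m (i m x) = x) (hχ1 : ∀ m w, |χ m w| ≤ 1)
    (hχ2 : ∀ m w w', |χ m w - χ m w'| ≤ dist w w' / R m)
    (hχ3 : ∀ m w, χ m w ≠ 0 → dist (r m w) x0 ≤ B * R m) (hχ4 : ∀ m, χ m x0 = 0)
    (hχ5 : ∀ m m' w, χ m w ≠ 0 → χ m' w ≠ 0 → m = m')
    (hχ6 : ∀ m x, dist x x0 ≤ 2 ^ (m + 1) → χ m (i m x) = 1) :
    ∃ (e : Free p x0 ≃ₗ[ℝ] ellP p hp x0) (C : ℝ), 0 ≤ C ∧
      (∀ v, ∑' n, ‖(e v).1 n‖ ≤ C * ‖v‖) ∧ ∀ v, ‖v‖ ≤ C * ∑' n, ‖(e v).1 n‖ := by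
  have hG := norm_smul_le_free p x0
  have hδ : ∀ (x y : M) (c : ℝ), dist x y ≤ c → ‖delta p x0 x - delta p x0 y‖ ≤ c ^ p :=
    fun x y c h => (norm_delta_sub p x0 x y).trans (Real.rpow_le_rpow dist_nonneg h hp.le)
  choose S hS1 hS2 hS3 using fun x : M => exists_supp (dist x x0)
  set L : ℝ := (2 * B) ^ p + (3 * (2 * B)) ^ p with hL
  have hL0 : 0 ≤ L := by positivity
  -- the maps defining `J`
  let gJ : ℕ → ℕ → M → Free p x0 := fun n k x =>
    ps k (dist x x0) • (delta p x0 (i (Nat.pair n k) x) - delta p x0 (i (Nat.pair n k) x0))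
  have hgJ : ∀ n k x y, ‖gJ n k x - gJ n k y‖ ≤ L * dist x y ^ p := by
    intro n k x y
    refine cutoff p hp hG (fun x => ps k (dist x x0))
      (fun x => delta p x0 (i (Nat.pair n k) x) - delta p x0 (i (Nat.pair n k) x0))
      (2 ^ k) 3 (2 * B) (by positivity)
      (by norm_num) (by positivity) (fun x => ps_abs k _) (fun x y => ps_lip k x y x0)
      (fun x y => ?_) (fun x hx => ?_) x y
    · rw [sub_sub_sub_cancel_right]
      apply hδ
      have := hi (Nat.pair n k) x y
      have h2 : 0 ≤ B * dist x y := by positivity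
      linarith
    · apply hδ
      have h1 : dist x x0 ≤ 2 ^ (k + 1) := by
        by_contra h
        exact hx (ps_upper k _ (not_le.1 h).le)
      calc _ ≤ B * dist x x0 := hi _ _ _
        _ ≤ B * 2 ^ (k + 1) := mul_le_mul_of_nonneg_left h1 hB
        _ = _ := by ring
  have hJex : ∀ n, ∃ T : Free p x0 →ₗ[ℝ] Free p x0, Continuous T ∧
      (∀ x, T (delta p x0 x) = ∑ k ∈ S x, gJ n k x) ∧ ∀ v, ‖T v‖ ≤ 4 * L * ‖v‖ := by
    intro n
    apply exists_ext1 p x0 hG (fun x => ∑ k ∈ S x, gJ n k x) (by simp [gJ]) (4 * L)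
      (by positivity)
    intro x y
    have := local_sum (gJ n) S hS1 (fun x k hk => by simp [gJ, hS2 x k hk])
      (L * dist x y ^ p) (by positivity) x y (fun k => hgJ n k x y) (fun _ => 0) {0}
    simpa [mul_assoc] using this
  choose J hJc hJd hJb using hJex
  -- the maps defining `P`
  have hS'ex : ∀ w : M, ∃ S' : Finset ℕ, S'.card ≤ 2 ∧ (∀ m, m ∉ S' → χ m w = 0) ∧
      ∀ m, χ m w ≠ 0 → S' = {m} := by
    intro w
    by_cases h : ∃ m, χ m w ≠ 0
    · obtain ⟨m, hm⟩ := h
      refine ⟨{m}, by simp, fun m' hm' => ?_, fun m' hm' => by rw [hχ5 m m' w hm hm']⟩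
      by_contra h
      exact hm' (by rw [hχ5 m m' w hm h]; simp)
    · push Not at h
      exact ⟨∅, by simp, fun m _ => h m, fun m hm => absurd (h m) hm⟩
  choose S' hS'1 hS'2 hS'3 using hS'ex
  let gP : ℕ → M → Free p x0 := fun m w => χ m w • delta p x0 (r m w)
  have hgP : ∀ m x y, ‖gP m x - gP m y‖ ≤ L * dist x y ^ p := by
    intro m x y
    refine cutoff p hp hG (χ m) (fun w => delta p x0 (r m w)) (R m) 3 (2 * B) (hR m)
      (by norm_num) (by positivity) (hχ1 m) (fun x y => ?_) (fun x y => ?_) (fun x hx => ?_) x y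
    · refine (hχ2 m x y).trans (div_le_div_of_nonneg_right ?_ (hR m).le)
      linarith [dist_nonneg (x := x) (y := y)]
    · apply hδ
      have := hr m x y
      have h2 : 0 ≤ B * dist x y := by positivity
      linarith
    · have := hδ (r m x) x0 (2 * B * R m) (by
        have := hχ3 m x hx
        have h2 : 0 ≤ B * R m := mul_nonneg hB (hR m).le
        linarith)
      rwa [delta_base, sub_zero] at this
  let f : ℕ → M → Free p x0 := fun n w =>
    ∑ m ∈ S' w, if (Nat.unpair m).1 = n then gP m w else 0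
  obtain ⟨P, hPc, hPd, hPb⟩ := exists_ext p x0 hG f (fun n => by simp [f, gP, hχ4]) (4 * L)
    (by positivity) (fun s x y => by
      have := local_sum gP S' hS'1 (fun x k hk => by simp [gP, hS'2 x k hk])
        (L * dist x y ^ p) (by positivity) x y (fun k => hgP k x y)
        (fun m => (Nat.unpair m).1) s
      rw [mul_assoc]
      exact this)
  have hf : ∀ n' n k x, dist x x0 ≤ 2 ^ (k + 1) →
      f n' (i (Nat.pair n k) x) = if n' = n then delta p x0 x else 0 := by
    intro n' n k x hx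
    have h1 : χ (Nat.pair n k) (i (Nat.pair n k) x) = 1 := hχ6 _ _ (hx.trans
      (pow_le_pow_right₀ (by norm_num) (by have := Nat.right_le_pair n k; omega)))
    have h2 := hS'3 _ _ (by rw [h1]; exact one_ne_zero)
    simp only [f, h2, Finset.sum_singleton, Nat.unpair_pair, gP, h1, hri, one_smul]
    by_cases h : n' = n
    · simp [h]
    · simp [h, Ne.symm h]
  refine pelczynski (ellP p hp x0) (fun y => ?_) J P (4 * L) (by positivity) hJb hPb
    (fun n' n v => ?_)
  · show (Summable fun n => pNorm p x0 (y n) ^ p) ↔ _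
    simp only [pNorm_rpow p hp]
  · have key : (P n') ∘ₗ (J n) = if n' = n then LinearMap.id else 0 := by
      apply ext_lin p x0 ((P n') ∘ₗ (J n)) _ ((hPc n').comp (hJc n))
      · split_ifs
        · exact continuous_id
        · exact continuous_const
      · intro x
        rw [LinearMap.comp_apply, hJd, map_sum]
        have : ∀ k ∈ S x, P n' (gJ n k x) =
            ps k (dist x x0) • (if n' = n then delta p x0 x else 0) := by
          intro k _
          simp only [gJ, map_smul, map_sub, hPd]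
          by_cases hk : ps k (dist x x0) = 0
          · simp [hk]
          · have h1 : dist x x0 ≤ 2 ^ (k + 1) := by
              by_contra h
              exact hk (ps_upper k _ (not_le.1 h).le)
            rw [hf n' n k x h1, hf n' n k x0 (by rw [dist_self]; positivity), delta_base]
            simp
        rw [Finset.sum_congr rfl this, ← Finset.sum_smul, hS3, one_smul]
        split_ifs <;> rfl
    have := LinearMap.congr_fun key v
    rw [LinearMap.comp_apply] at this
    rw [this]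
    split_ifs <;> rfl

end Pool.Agent.H595Z.FP
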