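import Mathlib
import Pool.Agent.H595Z.FPCut

set_option autoImplicit false
set_option linter.unusedSectionVars false

namespace Pool.Agent.H595Z.FP

open Classical

theorem bounds_to_pNorm {M : Type*} [MetricSpace M] (p : ℝ) (hp : 0 < p) (x0 : M)
    (h : ∃ (e : Free p x0 ≃ₗ[ℝ] ellP p hp x0) (C : ℝ), 0 ≤ C ∧
      (∀ v, ∑' n, ‖(e v).1 n‖ ≤ C * ‖v‖) ∧ ∀ v, ‖v‖ ≤ C * ∑' n, ‖(e v).1 n‖) :
    ∃ (e : Free p x0 ≃ₗ[ℝ] ellP p hp x0) (C : ℝ),
      (∀ v, ellNorm p x0 (e v) ≤ C * pNorm p x0 v) ∧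
      ∀ v, pNorm p x0 v ≤ C * ellNorm p x0 (e v) := by
  obtain ⟨e, C, hC, h1, h2⟩ := h
  have hq : 0 ≤ 1 / p := by positivity
  refine ⟨e, C ^ (1 / p), fun v => ?_, fun v => ?_⟩
  · unfold ellNorm
    simp only [pNorm_rpow p hp]
    unfold pNorm
    rw [← Real.mul_rpow hC (norm_nonneg _)]
    exact Real.rpow_le_rpow (tsum_nonneg fun _ => norm_nonneg _) (h1 v) hq
  · unfold ellNorm
    simp only [pNorm_rpow p hp]
    unfold pNorm
    rw [← Real.mul_rpow hC (tsum_nonneg fun _ => norm_nonneg _)]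
    exact Real.rpow_le_rpow (norm_nonneg _) (h2 v) hq

theorem isoToEllSum_of {M : Type*} [MetricSpace M] (p : ℝ) (hp : 0 < p) (x0 : M)
    (h : ∃ (e : Free p x0 ≃ₗ[ℝ] ellP p hp x0) (C : ℝ), 0 ≤ C ∧
      (∀ v, ∑' n, ‖(e v).1 n‖ ≤ C * ‖v‖) ∧ ∀ v, ‖v‖ ≤ C * ∑' n, ‖(e v).1 n‖) :
    IsoToEllSum p x0 := by
  obtain ⟨e, C, h1, h2⟩ := bounds_to_pNorm p hp x0 h
  refine ⟨fun v => (e v).1, C, ⟨fun v w => by rw [map_add]; rfl, fun r v => by
    rw [map_smul]; rfl⟩, fun v w hvw => e.injective (Subtype.ext hvw), ?_, h1, h2⟩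
  ext y
  constructor
  · rintro ⟨v, rfl⟩
    exact (e v).2
  · intro hy
    exact ⟨e.symm ⟨y, hy⟩, by simp⟩

theorem iso_of_subsingleton {M : Type*} [MetricSpace M] [Subsingleton M] (p : ℝ) (hp : 0 < p)
    (x0 : M) : ∃ (e : Free p x0 ≃ₗ[ℝ] ellP p hp x0) (C : ℝ), 0 ≤ C ∧
      (∀ v, ∑' n, ‖(e v).1 n‖ ≤ C * ‖v‖) ∧ ∀ v, ‖v‖ ≤ C * ∑' n, ‖(e v).1 n‖ := by
  have h0 : ∀ v : Free p x0, v = 0 := by
    intro v
    have := ext_lin p x0 (LinearMap.id : Free p x0 →ₗ[ℝ] Free p x0) 0 continuous_id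
      continuous_const (fun x => by rw [Subsingleton.elim x x0, delta_base]; simp)
    exact LinearMap.congr_fun this v
  refine pelczynski (ellP p hp x0) (fun y => ?_) (fun _ => 0) (fun _ => 0) 0 le_rfl
    (fun n v => by simp) (fun s v => by simp) (fun n' n v => ?_)
  · show (Summable fun n => pNorm p x0 (y n) ^ p) ↔ _
    simp only [pNorm_rpow p hp]
  · rw [h0 v]; simp

variable {X : Type*} [NormedAddCommGroup X] [NormedSpace ℝ X]

theorem iso_net (N : Set X) (hN : IsNet N) (x0 : N) (p : ℝ) (hp : 0 < p) :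
    ∃ (e : Free p x0 ≃ₗ[ℝ] ellP p hp x0) (C : ℝ), 0 ≤ C ∧
      (∀ v, ∑' n, ‖(e v).1 n‖ ≤ C * ‖v‖) ∧ ∀ v, ‖v‖ ≤ C * ∑' n, ‖(e v).1 n‖ := by
  rcases subsingleton_or_nontrivial X with hX | hX
  · exact iso_of_subsingleton p hp x0
  obtain ⟨u, hu⟩ : ∃ u : X, ‖u‖ = 1 := exists_norm_eq X zero_le_one
  obtain ⟨a, b, ha, hab, hsep, hden⟩ := hN
  have hb : 0 < b := ha.trans_le hab
  have hρex : ∀ z : X, ∃ y : N, ‖z - y‖ ≤ b := fun z => by
    obtain ⟨y, hy, h⟩ := hden z
    exact ⟨⟨y, hy⟩, h⟩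
  choose ρ hρ using hρex
  set C : ℝ := 2 * b / a + 1 with hC
  have hba : 0 < 2 * b / a := by positivity
  have hC1 : 1 ≤ C := by linarith
  have hC0 : 0 < C := by linarith
  have hCa : C * a = 2 * b + a := by rw [hC]; field_simp
  set D : ℝ := 2 * C + b with hD
  have hD0 : 0 < D := by positivity
  let R : ℕ → ℝ := fun m => D * 2 ^ m
  have hR : ∀ m, 0 < R m := fun m => by positivity
  have hRb : ∀ m, b ≤ R m := fun m => by
    have : (1 : ℝ) ≤ 2 ^ m := one_le_pow₀ (by norm_num)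
    show b ≤ D * 2 ^ m
    nlinarith
  let c : ℕ → X := fun m => (x0 : X) + (6 * R m) • u
  let i : ℕ → N → N := fun m x => ρ (c m + C • ((x : X) - x0))
  -- coarse Lipschitz maps on the net are Lipschitz
  have hlip : ∀ (g : N → N) (K : ℝ), 0 ≤ K → (∀ x y, dist (g x) (g y) ≤ K * dist x y + 2 * b) →
      ∀ x y, dist (g x) (g y) ≤ (K + 2 * b / a) * dist x y := by
    intro g K hK hg x y
    by_cases hxy : x = y
    · rw [hxy]; simp
    · have h1 : a ≤ dist x y := by
        rw [Subtype.dist_eq, dist_eq_norm]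
        exact hsep x x.2 y y.2 fun h => hxy (Subtype.ext h)
      have h2 : 2 * b ≤ 2 * b / a * dist x y := by
        calc 2 * b = 2 * b / a * a := by field_simp
          _ ≤ _ := mul_le_mul_of_nonneg_left h1 hba.le
      linarith [hg x y]
  have hnear : ∀ (y y' : N) (z z' : X), ‖z - y‖ ≤ b → ‖z' - y'‖ ≤ b →
      dist y y' ≤ ‖z - z'‖ + 2 * b ∧ ‖z - z'‖ ≤ dist y y' + 2 * b := by
    intro y y' z z' h h'
    rw [Subtype.dist_eq, ← dist_eq_norm] at *
    constructor
    · linarith [dist_triangle4 (y : X) z z' y', dist_comm (y : X) z]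
    · linarith [dist_triangle4 z (y : X) y' z', dist_comm (y' : X) z']
  have hiz : ∀ m (x y : N), ‖(c m + C • ((x : X) - x0)) - (c m + C • ((y : X) - x0))‖ =
      C * dist x y := by
    intro m x y
    rw [add_sub_add_left_eq_sub, ← smul_sub, sub_sub_sub_cancel_right, norm_smul,
      Real.norm_eq_abs, abs_of_pos hC0, Subtype.dist_eq, dist_eq_norm]
  have hinj : ∀ m, Function.Injective (i m) := by
    intro m x y hxy
    by_contra hne
    have h1 : a ≤ dist x y := by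
      rw [Subtype.dist_eq, dist_eq_norm]
      exact hsep x x.2 y y.2 fun h => hne (Subtype.ext h)
    have h2 := (hnear (i m x) (i m y) _ _ (hρ _) (hρ _)).2
    rw [hiz, hxy, dist_self] at h2
    nlinarith
  have hrex : ∀ m (w : N), ∃ y : N, ‖((x0 : X) + C⁻¹ • ((w : X) - c m)) - y‖ ≤ b ∧
      ∀ x, w = i m x → y = x := by
    intro m w
    by_cases h : ∃ x, w = i m x
    · obtain ⟨x, rfl⟩ := h
      refine ⟨x, ?_, fun x' hx' => hinj m hx'⟩
      have h1 := hρ (c m + C • ((x : X) - x0))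
      have e : ((x0 : X) + C⁻¹ • ((i m x : X) - c m)) - x =
          -(C⁻¹ • (c m + C • ((x : X) - x0) - (i m x : X))) := by
        simp only [smul_sub, smul_add, smul_smul, inv_mul_cancel₀ hC0.ne', one_smul]
        abel
      rw [e, norm_neg, norm_smul, Real.norm_eq_abs, abs_of_pos (inv_pos.2 hC0)]
      calc _ ≤ 1 * b := mul_le_mul (inv_le_one_of_one_le₀ hC1) h1 (norm_nonneg _) zero_le_one
        _ = b := one_mul b
    · exact ⟨ρ _, hρ _, fun x hx => absurd ⟨x, hx⟩ h⟩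
  choose r hr1 hr2 using hrex
  have hCinv : ∀ z : X, ‖C⁻¹ • z‖ ≤ ‖z‖ := fun z => by
    rw [norm_smul, Real.norm_eq_abs, abs_of_pos (inv_pos.2 hC0)]
    exact mul_le_of_le_one_left (norm_nonneg _) (inv_le_one_of_one_le₀ hC1)
  have hχ : ∀ m (w : N), th (dist (w : X) (c m) / R m) ≠ 0 → dist (w : X) (c m) < 2 * R m := by
    intro m w h
    by_contra h'
    apply h
    apply th_zero
    rw [le_div_iff₀ (hR m)]
    exact not_lt.1 h'
  have hcc : ∀ m m', m < m' → 2 * R m + 2 * R m' ≤ dist (c m) (c m') := by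
    intro m m' h
    have h1 : 2 * R m ≤ R m' := by
      have : (2 : ℝ) ^ (m + 1) ≤ 2 ^ m' := pow_le_pow_right₀ (by norm_num) h
      show 2 * (D * 2 ^ m) ≤ D * 2 ^ m'
      rw [pow_succ] at this
      nlinarith
    have h2 : dist (c m) (c m') = 6 * R m' - 6 * R m := by
      rw [dist_comm, dist_eq_norm]
      show ‖((x0 : X) + (6 * R m') • u) - ((x0 : X) + (6 * R m) • u)‖ = _
      rw [add_sub_add_left_eq_sub, ← sub_smul, norm_smul, hu, mul_one, Real.norm_eq_abs,
        abs_of_nonneg (by linarith [hR m])]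
    linarith [hR m]
  refine iso_of_data p hp x0 i r (fun m w => th (dist (w : X) (c m) / R m)) R
    (C + 2 * b / a + 3) (by positivity) hR (fun m x y => ?_) (fun m x y => ?_)
    (fun m x => hr2 m _ x rfl)
    (fun m w => by rw [abs_of_nonneg (th_nonneg _)]; exact th_le_one _)
    (fun m w w' => th_dist (w : X) (w' : X) (c m) (R m) (hR m)) (fun m w hw => ?_)
    (fun m => ?_) (fun m m' w h h' => ?_) (fun m x hx => ?_)
  · have := hlip (i m) C hC0.le (fun x y => by
      have h2 := (hnear (i m x) (i m y) _ _ (hρ _) (hρ _)).1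
      rwa [hiz] at h2) x y
    nlinarith [dist_nonneg (x := x) (y := y)]
  · have := hlip (r m) 1 zero_le_one (fun x y => by
      have h2 := (hnear (r m x) (r m y) _ _ (hr1 m x) (hr1 m y)).1
      rw [add_sub_add_left_eq_sub, ← smul_sub, sub_sub_sub_cancel_right] at h2
      have h3 := hCinv ((x : X) - y)
      rw [Subtype.dist_eq x y, dist_eq_norm]
      linarith) x y
    nlinarith [dist_nonneg (x := x) (y := y)]
  · have h1 := hχ m w hw
    have h2 := hr1 m w
    have h3 := hCinv ((w : X) - c m)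
    rw [dist_eq_norm] at h1
    have h4 : dist (r m w) x0 ≤ 3 * R m := by
      rw [Subtype.dist_eq, dist_eq_norm]
      have e : (r m w : X) - x0 = C⁻¹ • ((w : X) - c m) -
          ((x0 : X) + C⁻¹ • ((w : X) - c m) - r m w) := by abel
      rw [e]
      linarith [norm_sub_le (C⁻¹ • ((w : X) - c m))
        ((x0 : X) + C⁻¹ • ((w : X) - c m) - r m w), hRb m]
    nlinarith [hR m]
  · apply th_zero
    rw [le_div_iff₀ (hR m), dist_comm, dist_eq_norm]
    show _ ≤ ‖((x0 : X) + (6 * R m) • u) - x0‖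
    rw [add_sub_cancel_left, norm_smul, hu, mul_one, Real.norm_eq_abs,
      abs_of_nonneg (by linarith [hR m])]
    linarith [hR m]
  · have h1 := hχ m w h
    have h2 := hχ m' w h'
    have h3 := dist_triangle_left (c m) (c m') (w : X)
    rcases lt_trichotomy m m' with hm | hm | hm
    · linarith [hcc m m' hm]
    · exact hm
    · linarith [hcc m' m hm, dist_comm (c m) (c m')]
  · apply th_one
    rw [div_le_one (hR m), dist_eq_norm]
    have h1 := hρ (c m + C • ((x : X) - x0))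
    have e : (i m x : X) - c m = C • ((x : X) - x0) -
        (c m + C • ((x : X) - x0) - (i m x : X)) := by abel
    have h2 : ‖C • ((x : X) - x0)‖ ≤ C * 2 ^ (m + 1) := by
      rw [norm_smul, Real.norm_eq_abs, abs_of_pos hC0, ← dist_eq_norm, ← Subtype.dist_eq]
      exact mul_le_mul_of_nonneg_left hx hC0.le
    have h3 : (1 : ℝ) ≤ 2 ^ m := one_le_pow₀ (by norm_num)
    rw [e]
    have h4 := norm_sub_le (C • ((x : X) - x0)) (c m + C • ((x : X) - x0) - (i m x : X))
    show _ ≤ D * 2 ^ m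
    rw [pow_succ] at h2
    have h5 : ‖c m + C • ((x : X) - x0) - (i m x : X)‖ ≤ b := h1
    nlinarith

end Pool.Agent.H595Z.FP
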