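import Mathlib

set_option autoImplicit false

namespace Pool.Agent.H595Z.LO

/-- A group is left-orderable if it is nontrivial and has a left-invariant total order. -/
def IsLeftOrderable (G : Type*) [Group G] : Prop :=
  Nontrivial G ∧ ∃ r : LinearOrder G, ∀ f g h : G, r.le g h → r.le (f * g) (f * h)

/-- A connected combinatorial map on the finite set `D` of darts (half-edges): `σ` rotates darts
around vertices and `α` exchanges the two darts of an edge. Vertices are the cycles of `σ`,
faces are the cycles of `σ * α`. -/
structure IsMap {D : Type} (σ α : Equiv.Perm D) : Prop where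
  invol : ∀ d, α (α d) = d
  free : ∀ d, α d ≠ d
  conn : ∀ d d', Relation.ReflTransGen (fun u v => v = σ u ∨ v = α u) d d'

/-- `Walk π α e r s u K v`: a walk from the `π`-cycle of `u` to the `π`-cycle of `v`, each step
passing from a dart `c` to `α c`, where `c` is not a dart of the edge `{e, α e}`; the step at `c`
is charged an integer `m ≥ s c / r c`, and `K` is the total charge.
For `π = σ` this is a walk in the graph, for `π = σ * α` a walk in the dual graph. -/
inductive Walk {D : Type} (π α : Equiv.Perm D) (e : D) (r s : D → ℕ) : D → ℕ → D → Prop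
  | nil (u v : D) : π.SameCycle u v → Walk π α e r s u 0 v
  | cons (u c v : D) (K m : ℕ) : π.SameCycle u c → c ≠ e → c ≠ α e → s c ≤ m * r c →
      Walk π α e r s (α c) K v → Walk π α e r s u (K + m) v

/-- No edge other than `{e, α e}` joins the `π`-cycle of `e` to the `π`-cycle of `α e`. -/
def NoTwin {D : Type} (π α : Equiv.Perm D) (e : D) : Prop :=
  ∀ c, c ≠ e → c ≠ α e → ¬ (π.SameCycle c e ∧ π.SameCycle (α c) (α e))

/-- There is a walk between the two `π`-cycles at the edge `e`, avoiding that edge, in which one
step `c` is charged `s c / r c`, the other steps are charged integers `≥ s / r`, and the total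
charge is less than `s e / r e`, or equal to it if no other edge joins the two `π'`-cycles
at `e`. -/
def Short {D : Type} (π π' α : Equiv.Perm D) (e : D) (r s : D → ℕ) : Prop :=
  ∃ (c : D) (K K' : ℕ), c ≠ e ∧ c ≠ α e ∧ Walk π α e r s e K c ∧ Walk π α e r s (α c) K' (α e) ∧
    (((K + K' : ℕ) : ℚ) + s c / r c < s e / r e ∨
      (((K + K' : ℕ) : ℚ) + s c / r c = s e / r e ∧ NoTwin π' α e))

/-- The vertex generator of a dart. -/
def gx {D : Type} (d : D) : FreeGroup (D ⊕ D) := FreeGroup.of (Sum.inl d)

/-- The face generator of a dart. -/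
def gy {D : Type} (d : D) : FreeGroup (D ⊕ D) := FreeGroup.of (Sum.inr d)

/-- The first peripheral element of the tangle at the dart `d`. -/
def volt {D : Type} (α : Equiv.Perm D) (d : D) : FreeGroup (D ⊕ D) := (gx (α d))⁻¹ * gx d

/-- The second peripheral element of the tangle at the dart `d`. -/
def curr {D : Type} (α : Equiv.Perm D) (d : D) : FreeGroup (D ⊕ D) := gy d * (gy (α d))⁻¹

/-- The relators: one generator per vertex and per face, one vertex and one face generator killed,
and the relations of the rational tangle `r d / s d` at each edge, with the opposite sign at the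
edge `{e, α e}`. -/
def rels {D : Type} (σ α : Equiv.Perm D) (e : D) (r s : D → ℕ) : Set (FreeGroup (D ⊕ D)) :=
  {w | (∃ d, w = gx (σ d) * (gx d)⁻¹) ∨ (∃ d, w = gy (σ (α d)) * (gy d)⁻¹) ∨
    w = gx (α e) ∨ w = gy (α e) ∨
    (∃ d, w = volt α d * curr α d * (curr α d * volt α d)⁻¹) ∨
    (∃ d, d ≠ e ∧ d ≠ α e ∧ w = volt α d ^ r d * (curr α d ^ s d)⁻¹) ∨
    w = volt α e ^ r e * curr α e ^ s e}

end Pool.Agent.H595Z.LO
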