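import Mathlib
import Pool.Agent.H595Z.LODefs

set_option autoImplicit false
set_option linter.unusedSectionVars false

namespace Pool.Agent.H595Z.LO

section Max

variable {D : Type} [Finite D] {L : Type*} [LinearOrder L]

theorem cycle_const {β : Type*} (π : Equiv.Perm D) (A : D → β) (hA : ∀ d, A (π d) = A d)
    {u v : D} (h : π.SameCycle u v) : A u = A v := by
  obtain ⟨n, rfl⟩ := h.exists_nat_pow_eq
  induction n with
  | zero => rfl
  | succ n ih =>
    rw [pow_succ', Equiv.Perm.mul_apply, hA]
    exact ih (by simpa using Equiv.Perm.SameCycle.refl π u)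

theorem cycle_mono (π : Equiv.Perm D) (B : D → L) (c : D)
    (h : ∀ c', π.SameCycle c c' → B c' ≤ B (π c')) : B (π c) = B c := by
  have key : ∀ n : ℕ, B (π c) ≤ B ((π ^ (n + 1)) c) := by
    intro n
    induction n with
    | zero => simp
    | succ n ih =>
      refine ih.trans ?_
      rw [pow_succ' π (n + 1), Equiv.Perm.mul_apply]
      exact h _ (by simpa using Equiv.Perm.SameCycle.refl π c)
  have hpos : 0 < orderOf π := orderOf_pos π
  have h1 := key (orderOf π - 1)
  rw [Nat.sub_add_cancel hpos, pow_orderOf_eq_one] at h1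
  exact le_antisymm h1 (h c (Equiv.Perm.SameCycle.refl π c))

/-- local maximum principle -/
theorem local_max (π α : Equiv.Perm D) (e : D) (A B : D → L) (hA : ∀ d, A (π d) = A d)
    (h1 : ∀ c, c ≠ e → c ≠ α e → (A (α c) < A c ↔ B c < B (π c)))
    (h2 : ∀ c, c ≠ e → c ≠ α e → (A c < A (α c) ↔ B (π c) < B c))
    (c : D) (he : ¬ π.SameCycle c e) (he' : ¬ π.SameCycle c (α e)) (hmax : ∀ d, A d ≤ A c) :
    A (α c) = A c := by
  have hne : ∀ c', π.SameCycle c c' → c' ≠ e ∧ c' ≠ α e := fun c' h =>
    ⟨fun h' => he (h' ▸ h), fun h' => he' (h' ▸ h)⟩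
  have := cycle_mono π B c (fun c' hc' => by
    by_contra hlt
    have := (h2 c' (hne c' hc').1 (hne c' hc').2).2 (not_le.1 hlt)
    rw [← cycle_const π A hA hc'] at this
    exact absurd (hmax _) (not_le.2 this))
  have hc := hne c (Equiv.Perm.SameCycle.refl π c)
  rcases (hmax (α c)).lt_or_eq with h | h
  · have := (h1 c hc.1 hc.2).1 h
    simp_all
  · exact h

/-- global maximum principle -/
theorem global_max (π α : Equiv.Perm D) (e : D) (A B : D → L) (hA : ∀ d, A (π d) = A d)
    (h1 : ∀ c, c ≠ e → c ≠ α e → (A (α c) < A c ↔ B c < B (π c)))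
    (h2 : ∀ c, c ≠ e → c ≠ α e → (A c < A (α c) ↔ B (π c) < B c))
    (hconn : ∀ S : Set D, (∀ d ∈ S, π d ∈ S) → (∀ d ∈ S, α d ∈ S) → S.Nonempty → e ∈ S) (d : D) :
    A d ≤ max (A e) (A (α e)) := by
  haveI : Nonempty D := ⟨e⟩
  obtain ⟨m, hm⟩ := Finite.exists_max A
  by_contra hlt
  have hlt' : max (A e) (A (α e)) < A m := (not_le.1 hlt).trans_le (hm d)
  have := hconn {c | A c = A m} (fun c hc => (hA c).trans hc) (fun c hc => by
    have hc' : A c = A m := hc
    show A (α c) = A m
    rw [← hc']
    apply local_max π α e A B hA h1 h2 c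
    · intro h
      rw [← hc', cycle_const π A hA h] at hlt'
      exact absurd (le_max_left _ _) (not_le.2 hlt')
    · intro h
      rw [← hc', cycle_const π A hA h] at hlt'
      exact absurd (le_max_right _ _) (not_le.2 hlt')
    · intro d'
      rw [hc']
      exact hm d') ⟨m, rfl⟩
  have h3 : A e = A m := this
  rw [← h3] at hlt'
  exact absurd (le_max_left _ _) (not_le.2 hlt')

end Max

section Grp

variable {G : Type*} [Group G] [LinearOrder G] [MulLeftMono G]

theorem lt_pow_mul {g t : G} (h : t < g * t) (n : ℕ) : t < g ^ (n + 1) * t := by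
  induction n with
  | zero => simpa using h
  | succ n ih =>
    rw [pow_succ, mul_assoc]
    exact ih.trans (mul_lt_mul_right h _)

theorem pow_mul_lt {g t : G} (h : g * t < t) (n : ℕ) : g ^ (n + 1) * t < t := by
  induction n with
  | zero => simpa using h
  | succ n ih =>
    rw [pow_succ, mul_assoc]
    exact (mul_lt_mul_right h _).trans ih

theorem lt_of_lt_pow {g t : G} {n : ℕ} (h : t < g ^ (n + 1) * t) : t < g * t := by
  rcases lt_trichotomy t (g * t) with h' | h' | h'
  · exact h'
  · have : g = 1 := by simpa using h'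
    simp [this] at h
  · exact absurd (pow_mul_lt h' n) (not_lt.2 h.le)

theorem le_pow_mul {g t : G} (h : t < g * t) (n : ℕ) : g * t ≤ g ^ (n + 1) * t := by
  cases n with
  | zero => simp
  | succ n =>
    rw [pow_succ' g (n + 1), mul_assoc]
    exact mul_le_mul_right (lt_pow_mul h n).le _

/-- If the generators are squeezed between `1` and `z` wherever `z` moves points up, then `z` moves
all points up. -/
theorem sign_const (S : Set G) (hS : Subgroup.closure S = ⊤) (z : G) (hz : 1 < z)
    (h : ∀ t, t < z * t → ∀ s ∈ S, t ≤ s * t ∧ s * t ≤ z * t) (t : G) : t < z * t := by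
  have hpos : ∀ n : ℤ, z ^ n < z * z ^ n := fun n => by
    have := mul_lt_mul_right hz (z ^ n)
    rwa [mul_one, ← zpow_add_one, add_comm, zpow_add, zpow_one] at this
  have hcof : ∀ g : G, ∀ u : G, (∃ n m : ℤ, z ^ n ≤ u ∧ u ≤ z ^ m) →
      ∃ n m : ℤ, z ^ n ≤ g * u ∧ g * u ≤ z ^ m := by
    intro g
    have hg : g ∈ Subgroup.closure S := hS ▸ Subgroup.mem_top g
    induction hg using Subgroup.closure_induction'' with
    | one => intro u hu; simpa using hu
    | mem s hs =>
      rintro u ⟨n, m, hn, hm⟩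
      refine ⟨n, 1 + m, ((h _ (hpos n) s hs).1).trans (mul_le_mul_right hn s), ?_⟩
      rw [zpow_add, zpow_one]
      exact (mul_le_mul_right hm s).trans (h _ (hpos m) s hs).2
    | inv_mem s hs =>
      rintro u ⟨n, m, hn, hm⟩
      refine ⟨n - 1, m, ?_, ?_⟩
      · rw [le_inv_mul_iff_mul_le]
        refine ((h _ (hpos (n - 1)) s hs).2).trans ?_
        rw [← zpow_one_add]
        simpa using hn
      · rw [inv_mul_le_iff_le_mul]
        exact hm.trans (h _ (hpos m) s hs).1
    | mul a b _ _ ha hb =>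
      intro u hu
      rw [mul_assoc]
      exact ha _ (hb u hu)
  rcases lt_trichotomy t (z * t) with h' | h' | h'
  · exact h'
  · have : z = 1 := by simpa using h'
    exact absurd this hz.ne'
  · exfalso
    obtain ⟨n, m, hn, -⟩ := hcof t 1 ⟨0, 0, by simp, by simp⟩
    rw [mul_one] at hn
    -- `z ^ k ≤ t` for all `k ≥ n`
    have hall : ∀ k : ℕ, z ^ (n + k) ≤ t := by
      intro k
      induction k with
      | zero => simpa using hn
      | succ k ih =>
        have : z ^ (n + ((k + 1 : ℕ) : ℤ)) = z * z ^ (n + k) := by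
          rw [← zpow_one_add]; congr 1; push_cast; ring
        rw [this]
        exact (mul_le_mul_right ih z).trans h'.le
    obtain ⟨n', m', -, hm'⟩ := hcof t 1 ⟨0, 0, by simp, by simp⟩
    rw [mul_one] at hm'
    have hmono : ∀ (a : ℤ) (k : ℕ), z ^ a < z ^ (a + (k + 1 : ℕ)) := fun a k => by
      have := lt_pow_mul (hpos a) k
      rwa [← zpow_natCast, ← zpow_add, add_comm] at this
    rcases le_or_gt n m' with hnm | hnm
    · obtain ⟨k, hk⟩ : ∃ k : ℕ, m' = n + k := ⟨(m' - n).toNat, by omega⟩
      have h1 := hall (k + 1)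
      have h2 := hmono m' 0
      have : n + ((k + 1 : ℕ) : ℤ) = m' + ((0 + 1 : ℕ) : ℤ) := by push_cast; omega
      rw [this] at h1
      exact absurd (h1.trans hm') (not_le.2 h2)
    · obtain ⟨k, hk⟩ : ∃ k : ℕ, n = m' + (k + 1 : ℕ) := ⟨(n - m' - 1).toNat, by omega⟩
      have h2 := hmono m' k
      rw [← hk] at h2
      exact absurd (hn.trans hm') (not_le.2 h2)

theorem pow_le_pow_pt {g h : G} (hgh : ∀ t, g * t ≤ h * t) (n : ℕ) (t : G) :
    g ^ n * t ≤ h ^ n * t := by
  induction n generalizing t with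
  | zero => simp
  | succ n ih =>
    rw [pow_succ, pow_succ, mul_assoc, mul_assoc]
    exact (mul_le_mul_right (hgh t) _).trans (ih _)

end Grp

end Pool.Agent.H595Z.LO
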