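import Mathlib
import Pool.Agent.H595Z.LOMain

set_option autoImplicit false
set_option linter.unusedSectionVars false

namespace Pool.Agent.H595Z.LO

section Twin

variable {D : Type} [Finite D] {L : Type*} [LinearOrder L]

theorem twin (π α : Equiv.Perm D) (hα : ∀ d, α (α d) = d) (e : D) (A B : D → L)
    (hA : ∀ d, A (π d) = A d)
    (h1 : ∀ c, c ≠ e → c ≠ α e → (A (α c) < A c ↔ B c < B (π c)))
    (h2 : ∀ c, c ≠ e → c ≠ α e → (A c < A (α c) ↔ B (π c) < B c))
    (hlt : A (α e) < A e) (hmin : ∀ d, A (α e) ≤ A d) (hmax : ∀ d, A d ≤ A e)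
    (c : D) (hc : A c = A e) (hc' : A (α c) = A (α e)) :
    π.SameCycle c e ∧ π.SameCycle (α c) (α e) := by
  constructor
  · by_contra h
    have h' : ¬ π.SameCycle c (α e) := fun h' => by
      rw [← hc, cycle_const π A hA h'] at hlt
      exact lt_irrefl _ hlt
    have := local_max π α e A B hA h1 h2 c h h' (fun d => hc ▸ hmax d)
    rw [← hc, ← hc', this] at hlt
    exact lt_irrefl _ hlt
  · by_contra h
    have h' : ¬ π.SameCycle (α c) e := fun h' => by
      rw [← hc', cycle_const π A hA h'] at hlt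
      exact lt_irrefl _ hlt
    have := local_max (L := Lᵒᵈ) π α e (fun d => OrderDual.toDual (A d))
      (fun d => OrderDual.toDual (B d)) (fun d => congrArg _ (hA d)) h2 h1 (α c) h' h
      (fun d => by
        show A (α c) ≤ A d
        rw [hc']
        exact hmin d)
    have h3 : A (α (α c)) = A (α c) := this
    rw [hα] at h3
    rw [← hc, ← hc', h3] at hlt
    exact lt_irrefl _ hlt

theorem conn_closed {σ α : Equiv.Perm D} (hm : IsMap σ α) (e : D) (S : Set D)
    (h1 : ∀ d ∈ S, σ d ∈ S) (h2 : ∀ d ∈ S, α d ∈ S) (hS : S.Nonempty) : e ∈ S := by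
  obtain ⟨d, hd⟩ := hS
  have := hm.conn d e
  induction this with
  | refl => exact hd
  | tail _ hbc ih =>
    rcases hbc with rfl | rfl
    · exact h1 _ ih
    · exact h2 _ ih

theorem conn_closed' {σ α : Equiv.Perm D} (hm : IsMap σ α) (e : D) (S : Set D)
    (h1 : ∀ d ∈ S, (σ * α) d ∈ S) (h2 : ∀ d ∈ S, α d ∈ S) (hS : S.Nonempty) : e ∈ S :=
  conn_closed hm e S (fun d hd => by
    have := h1 _ (h2 d hd)
    rwa [Equiv.Perm.mul_apply, hm.invol] at this) h2 hS

end Twin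

variable {G : Type*} [Group G] [LinearOrder G] [MulLeftMono G]

theorem pow_lt_of {g t : G} {n : ℕ} (h : g ^ (n + 1) * t < t) : g * t < t := by
  rcases lt_trichotomy t (g * t) with h' | h' | h'
  · exact absurd (lt_pow_mul h' n) (not_lt.2 h.le)
  · have : g = 1 := by simpa using h'
    simp [this] at h
  · exact h'

theorem sign_up {V I : G} {a b : ℕ} (ha : 0 < a) (hb : 0 < b) (h : V ^ a = I ^ b) (t : G) :
    t < V * t ↔ t < I * t := by
  obtain ⟨a, rfl⟩ : ∃ a', a = a' + 1 := ⟨a - 1, by omega⟩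
  obtain ⟨b, rfl⟩ : ∃ a', b = a' + 1 := ⟨b - 1, by omega⟩
  exact ⟨fun h' => lt_of_lt_pow (h ▸ lt_pow_mul h' a),
    fun h' => lt_of_lt_pow (h.symm ▸ lt_pow_mul h' b)⟩

theorem sign_down {V I : G} {a b : ℕ} (ha : 0 < a) (hb : 0 < b) (h : V ^ a = I ^ b) (t : G) :
    V * t < t ↔ I * t < t := by
  obtain ⟨a, rfl⟩ : ∃ a', a = a' + 1 := ⟨a - 1, by omega⟩
  obtain ⟨b, rfl⟩ : ∃ a', b = a' + 1 := ⟨b - 1, by omega⟩
  exact ⟨fun h' => pow_lt_of (h ▸ pow_mul_lt h' a), fun h' => pow_lt_of (h.symm ▸ pow_mul_lt h' b)⟩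

theorem le_pow_of_pos {g : G} (hg : ∀ t, t < g * t) (n : ℕ) (t : G) : t ≤ g ^ n * t := by
  cases n with
  | zero => simp
  | succ n => exact (lt_pow_mul (hg t) n).le

theorem step_bound {V I l : G} {a b m : ℕ} (ha : 0 < a) (hb : 0 < b) (h : V ^ a = I ^ b)
    (hc : Commute V I) (hm : b ≤ m * a) (hl : ∀ t, t < l * t) (hI : ∀ t, I * t ≤ l * t) (t : G) :
    V * t ≤ l ^ m * t := by
  by_cases hV : t < V * t
  · have hIt := (sign_up ha hb h t).1 hV
    refine le_trans ?_ (pow_le_pow_pt hI m t)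
    by_contra hlt
    have h1 : t < (I ^ m)⁻¹ * V * t := by
      rw [mul_assoc, lt_inv_mul_iff_mul_lt]
      exact not_le.1 hlt
    obtain ⟨a, rfl⟩ : ∃ a', a = a' + 1 := ⟨a - 1, by omega⟩
    have h2 := lt_pow_mul h1 a
    rw [(hc.symm.pow_left m).inv_left.mul_pow, h, inv_pow, ← pow_mul, mul_assoc,
      lt_inv_mul_iff_mul_lt] at h2
    obtain ⟨j, hj⟩ : ∃ j, m * (a + 1) = b + j := ⟨m * (a + 1) - b, by omega⟩
    rw [hj, pow_add, mul_assoc] at h2
    have h3 : I ^ j * t < t := lt_of_mul_lt_mul_left' h2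
    cases j with
    | zero => simp at h3
    | succ j => exact absurd (lt_pow_mul hIt j) (not_lt.2 h3.le)
  · exact (not_lt.1 hV).trans (le_pow_of_pos hl m t)

theorem pow_lt_pow_pt {g h : G} (hgh : ∀ t, g * t ≤ h * t) (hne : g ≠ h) {n : ℕ} (hn : 0 < n)
    (t : G) : g ^ n * t < h ^ n * t := by
  obtain ⟨n, rfl⟩ : ∃ a', n = a' + 1 := ⟨n - 1, by omega⟩
  rw [pow_succ, pow_succ, mul_assoc, mul_assoc]
  exact (mul_lt_mul_right (lt_of_le_of_ne (hgh t) fun h => hne (mul_right_cancel h)) _).trans_le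
    (pow_le_pow_pt hgh n _)

/-- the final counting argument -/
theorem count {μ l A B V I : G} {p q a b K K' : ℕ} (hp : 0 < p) (ha : 0 < a) (hb : 0 < b)
    (hc : Commute μ l) (hfill : μ ^ p = l ^ q) (hl : ∀ t, t < l * t)
    (hμ : μ = B * V * A ∨ μ = A * V * B) (hA : ∀ t, A * t ≤ l ^ K * t)
    (hB : ∀ t, B * t ≤ l ^ K' * t) (hV : V ^ a = I ^ b) (hI : ∀ t, I * t ≤ l * t)
    (hk : p * ((K + K') * a + b) < q * a ∨ (p * ((K + K') * a + b) = q * a ∧ I ≠ l)) : False := by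
  have gen : ∀ (A B : G) (K K' : ℕ), μ = B * V * A → (∀ t, A * t ≤ l ^ K * t) →
      (∀ t, B * t ≤ l ^ K' * t) → ∀ t, μ * (l ^ (K + K'))⁻¹ * t ≤ V * t := by
    intro A B K K' hμ hA hB t
    have h1 : μ * ((l ^ K)⁻¹ * t) ≤ l ^ K' * (V * t) := by
      rw [hμ, mul_assoc, mul_assoc]
      refine (hB _).trans (mul_le_mul_right (mul_le_mul_right ?_ V) _)
      simpa using hA ((l ^ K)⁻¹ * t)
    rw [← inv_mul_le_iff_le_mul] at h1
    refine le_of_eq_of_le ?_ h1
    rw [pow_add, mul_inv_rev, ← mul_assoc μ, (hc.pow_right K').inv_right.eq]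
    group
  have h1 : ∀ t, μ * (l ^ (K + K'))⁻¹ * t ≤ V * t := by
    rcases hμ with hμ | hμ
    · exact gen A B K K' hμ hA hB
    · rw [add_comm]
      exact gen B A K' K hμ hB hA
  have h2 := pow_le_pow_pt h1 (a * p) 1
  rw [pow_mul V, hV, ← pow_mul, (hc.pow_right _).inv_right.mul_pow, mul_comm a p, pow_mul μ,
    hfill, ← pow_mul, inv_pow, ← pow_mul, mul_one,
    ((Commute.refl l).pow_pow _ _).inv_right.eq] at h2
  have h3 := pow_le_pow_pt hI (b * p) 1
  rcases hk with hk | ⟨hk, hne⟩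
  · have h4 := h2.trans h3
    rw [mul_one, inv_mul_le_iff_le_mul, ← pow_add] at h4
    obtain ⟨j, hj⟩ : ∃ j, q * a = j + 1 + ((K + K') * (p * a) + b * p) :=
      ⟨q * a - ((K + K') * (p * a) + b * p) - 1, by
        have : p * ((K + K') * a + b) = (K + K') * (p * a) + b * p := by ring
        omega⟩
    have h5 := lt_pow_mul (hl (l ^ ((K + K') * (p * a) + b * p))) j
    rw [← pow_add, ← hj] at h5
    exact absurd h4 (not_le.2 h5)
  · have h4 := h2.trans_lt (pow_lt_pow_pt hI hne (Nat.mul_pos hb hp) 1)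
    rw [mul_one, inv_mul_lt_iff_lt_mul, ← pow_add, ← hk] at h4
    have : p * ((K + K') * a + b) = (K + K') * (p * a) + b * p := by ring
    rw [this] at h4
    exact lt_irrefl _ h4

theorem rat_cond {p q a b K : ℕ} (hp : 0 < p) (ha : 0 < a) {T : Prop}
    (h : ((K : ℚ) + b / a < q / p) ∨ (((K : ℚ) + b / a = q / p) ∧ T)) :
    p * (K * a + b) < q * a ∨ (p * (K * a + b) = q * a ∧ T) := by
  have hp' : (0 : ℚ) < p := by exact_mod_cast hp
  have ha' : (0 : ℚ) < a := by exact_mod_cast ha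
  have e : (K : ℚ) + b / a = (K * a + b) / a := by field_simp
  rw [e] at h
  rcases h with h | ⟨h, hT⟩
  · left
    rw [div_lt_div_iff₀ ha' hp', mul_comm] at h
    exact_mod_cast h
  · right
    rw [div_eq_div_iff ha'.ne' hp'.ne', mul_comm] at h
    exact ⟨by exact_mod_cast h, hT⟩

variable {D : Type} [Finite D]

theorem core {σ α : Equiv.Perm D} (hm : IsMap σ α) (e : D) (r s : D → ℕ) (hr : ∀ d, 0 < r d)
    (hs : ∀ d, 0 < s d) (x y : D → G)
    (hx : ∀ d, x (σ d) = x d) (hy : ∀ d, y (σ (α d)) = y d)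
    (hcom : ∀ d, Commute ((x (α d))⁻¹ * x d) (y d * (y (α d))⁻¹))
    (hedge : ∀ d, d ≠ e → d ≠ α e → ((x (α d))⁻¹ * x d) ^ r d = (y d * (y (α d))⁻¹) ^ s d)
    (hx0 : x (α e) = 1) (hy0 : y (α e) = 1) (hfill : x e ^ r e = (y e)⁻¹ ^ s e)
    (hgen : Subgroup.closure (Set.range x ∪ Set.range fun d => (y d)⁻¹) = ⊤)
    (hz : x e ^ r e = 1 ∨ 1 < x e ^ r e) (hnt : Nontrivial G)
    (hw : Short σ (σ * α) α e r s ∨ Short (σ * α) σ α e s r) : False := by
  have hyσ : ∀ c, y (σ c) = y (α c) := fun c => by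
    have := hy (α c)
    rwa [hm.invol] at this
  have e1 : ∀ t c, c ≠ e → c ≠ α e →
      (x (α c) * t < x c * t ↔ (y c)⁻¹ * t < (y (α c))⁻¹ * t) := fun t c h h' => by
    rw [← lt_inv_mul_iff_mul_lt, ← mul_assoc, sign_up (hr c) (hs c) (hedge c h h'), mul_assoc,
      inv_mul_lt_iff_lt_mul]
  have e2 : ∀ t c, c ≠ e → c ≠ α e →
      (x c * t < x (α c) * t ↔ (y (α c))⁻¹ * t < (y c)⁻¹ * t) := fun t c h h' => by
    rw [← inv_mul_lt_iff_lt_mul, ← mul_assoc, sign_down (hr c) (hs c) (hedge c h h'), mul_assoc,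
      lt_inv_mul_iff_mul_lt]
  have v1 : ∀ t c, c ≠ e → c ≠ α e →
      (x (α c) * t < x c * t ↔ (y c)⁻¹ * t < (y (σ c))⁻¹ * t) := fun t c h h' => by
    rw [hyσ]; exact e1 t c h h'
  have v2 : ∀ t c, c ≠ e → c ≠ α e →
      (x c * t < x (α c) * t ↔ (y (σ c))⁻¹ * t < (y c)⁻¹ * t) := fun t c h h' => by
    rw [hyσ]; exact e2 t c h h'
  have f1 : ∀ t c, c ≠ e → c ≠ α e →
      ((y (α c))⁻¹ * t < (y c)⁻¹ * t ↔ x c * t < x ((σ * α) c) * t) := fun t c h h' => by
    rw [Equiv.Perm.mul_apply, hx]; exact (e2 t c h h').symm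
  have f2 : ∀ t c, c ≠ e → c ≠ α e →
      ((y c)⁻¹ * t < (y (α c))⁻¹ * t ↔ x ((σ * α) c) * t < x c * t) := fun t c h h' => by
    rw [Equiv.Perm.mul_apply, hx]; exact (e1 t c h h').symm
  have hyφ : ∀ d, y ((σ * α) d) = y d := hy
  -- the maximum principles
  have bx : ∀ t, t ≤ x e * t → ∀ d, t ≤ x d * t ∧ x d * t ≤ x e * t := by
    intro t ht d
    constructor
    · have := global_max (L := Gᵒᵈ) σ α e (fun d => OrderDual.toDual (x d * t))
        (fun d => OrderDual.toDual ((y d)⁻¹ * t)) (fun d => by rw [hx]) (v2 t) (v1 t)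
        (conn_closed hm e) d
      have h' : min (x e * t) (x (α e) * t) ≤ x d * t := this
      rwa [hx0, one_mul, min_eq_right ht] at h'
    · have := global_max σ α e (fun d => x d * t) (fun d => (y d)⁻¹ * t) (fun d => by rw [hx])
        (v1 t) (v2 t) (conn_closed hm e) d
      rwa [hx0, one_mul, max_eq_left ht] at this
  have by' : ∀ t, t ≤ (y e)⁻¹ * t → ∀ d, t ≤ (y d)⁻¹ * t ∧ (y d)⁻¹ * t ≤ (y e)⁻¹ * t := by
    intro t ht d
    constructor
    · have := global_max (L := Gᵒᵈ) (σ * α) α e (fun d => OrderDual.toDual ((y d)⁻¹ * t))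
        (fun d => OrderDual.toDual (x d * t)) (fun d => by rw [hyφ]) (f2 t) (f1 t)
        (conn_closed' hm e) d
      have h' : min ((y e)⁻¹ * t) ((y (α e))⁻¹ * t) ≤ (y d)⁻¹ * t := this
      rwa [hy0, inv_one, one_mul, min_eq_right ht] at h'
    · have := global_max (σ * α) α e (fun d => (y d)⁻¹ * t) (fun d => x d * t)
        (fun d => by rw [hyφ]) (f1 t) (f2 t) (conn_closed' hm e) d
      rwa [hy0, inv_one, one_mul, max_eq_left ht] at this
  obtain ⟨p, hp⟩ : ∃ p, r e = p + 1 := ⟨r e - 1, by have := hr e; omega⟩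
  obtain ⟨q, hq⟩ : ∃ q, s e = q + 1 := ⟨s e - 1, by have := hs e; omega⟩
  rcases hz with hz | hz
  · have one_of : ∀ (g : G) (n : ℕ), g ^ (n + 1) = 1 → g = 1 := fun g n h => by
      rcases lt_trichotomy 1 g with h' | h' | h'
      · have := lt_pow_mul (g := g) (t := 1) (by simpa using h') n
        simp [h] at this
      · exact h'.symm
      · have := pow_mul_lt (g := g) (t := 1) (by simpa using h') n
        simp [h] at this
    have h1 : x e = 1 := one_of _ p (hp ▸ hz)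
    have h2 : (y e)⁻¹ = 1 := one_of _ q (hq ▸ hfill.symm.trans hz)
    have : (⊤ : Subgroup G) ≤ ⊥ := by
      rw [← hgen, Subgroup.closure_le]
      rintro g (⟨d, rfl⟩ | ⟨d, rfl⟩)
      · have := bx 1 (by simp [h1]) d
        rw [h1, mul_one, mul_one] at this
        exact le_antisymm this.2 this.1
      · have := by' 1 (by simp [h2]) d
        rw [h2, mul_one, mul_one] at this
        exact le_antisymm this.2 this.1
    obtain ⟨g, hg⟩ := exists_ne (1 : G)
    exact hg (this (Subgroup.mem_top g))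
  have hall : ∀ t, t < x e ^ r e * t := by
    apply sign_const _ hgen _ hz
    rintro t ht s (⟨d, rfl⟩ | ⟨d, rfl⟩)
    · rw [hp] at ht ⊢
      have h1 := lt_of_lt_pow ht
      exact ⟨(bx t h1.le d).1, (bx t h1.le d).2.trans (le_pow_mul h1 p)⟩
    · rw [hfill, hq] at ht ⊢
      have h1 := lt_of_lt_pow ht
      exact ⟨(by' t h1.le d).1, (by' t h1.le d).2.trans (le_pow_mul h1 q)⟩
  have hμ : ∀ t, t < x e * t := fun t => lt_of_lt_pow (hp ▸ hall t)
  have hl : ∀ t, t < (y e)⁻¹ * t := fun t => lt_of_lt_pow (hq ▸ hfill ▸ hall t)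
  have bx1 : ∀ d t, t ≤ x d * t := fun d t => (bx t (hμ t).le d).1
  have bx2 : ∀ d t, x d * t ≤ x e * t := fun d t => (bx t (hμ t).le d).2
  have by1 : ∀ d t, t ≤ (y d)⁻¹ * t := fun d t => (by' t (hl t).le d).1
  have by2 : ∀ d t, (y d)⁻¹ * t ≤ (y e)⁻¹ * t := fun d t => (by' t (hl t).le d).2
  have hc : Commute (x e) (y e)⁻¹ := by
    have := hcom e
    rw [hx0, hy0, inv_one, one_mul, mul_one] at this
    exact this.inv_right
  have stepI : ∀ c s, y c * (y (α c))⁻¹ * s ≤ (y e)⁻¹ * s := fun c s => by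
    rw [mul_assoc, ← le_inv_mul_iff_mul_le]
    exact (by2 _ s).trans (by1 _ _)
  have stepV : ∀ c s, (x (α c))⁻¹ * x c * s ≤ x e * s := fun c s => by
    rw [mul_assoc, inv_mul_le_iff_le_mul]
    exact (bx2 c s).trans (bx1 _ _)
  rcases hw with ⟨c, K, K', hc1, hc2, w1, w2, hk⟩ | ⟨c, K, K', hc1, hc2, w1, w2, hk⟩
  · have key : ∀ u n v, Walk σ α e r s u n v → ∀ t, (x v)⁻¹ * x u * t ≤ (y e)⁻¹ ^ n * t := by
      intro u n v h
      induction h with
      | nil u v h => rw [cycle_const σ x hx h]; simp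
      | cons u c v n m h hc hc' hm' _ ih =>
        intro t
        have e3 : (x v)⁻¹ * x u = (x v)⁻¹ * x (α c) * ((x (α c))⁻¹ * x c) := by
          rw [cycle_const σ x hx h]; group
        rw [e3, mul_assoc, pow_add, mul_assoc ((y e)⁻¹ ^ n)]
        exact (mul_le_mul_right (step_bound (hr c) (hs c) (hedge c hc hc') (hcom c) hm' hl
          (stepI c) t) _).trans (ih _)
    refine count (hr e) (hr c) (hs c) hc hfill hl (Or.inl ?_) (key _ _ _ w1) (key _ _ _ w2)
      (hedge c hc1 hc2) (stepI c) ((rat_cond (hr e) (hr c) hk).imp id fun h => ⟨h.1, ?_⟩)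
    · rw [hx0]; group
    · intro h4
      have h5 : (y (α c))⁻¹ = (y c)⁻¹ * (y e)⁻¹ := by rw [← h4]; group
      have h6 : (y (α c))⁻¹ = (y e)⁻¹ := le_antisymm (by simpa using by2 (α c) 1)
        (by rw [h5]; exact by1 _ _)
      have h7 : (y c)⁻¹ = 1 := by
        rw [h6] at h5
        simpa using h5
      have hc3 : α c ≠ e := fun h => hc2 (by rw [← h, hm.invol])
      have hc4 : α c ≠ α e := fun h => hc1 (α.injective h)
      exact h.2 (α c) hc3 hc4 (twin (σ * α) α hm.invol e (fun d => (y d)⁻¹ * 1)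
        (fun d => x d * 1) (fun d => by rw [hyφ]) (f1 1) (f2 1) (by simpa [hy0] using hl 1)
        (fun d => by simpa [hy0] using by1 d 1) (fun d => by2 d 1) (α c) (by rw [h6])
        (by rw [hm.invol, h7, hy0, inv_one]))
  · -- dual walk from the face of `e` to the face of `α e`
    have key : ∀ u n v, Walk (σ * α) α e s r u n v → ∀ t, y v * (y u)⁻¹ * t ≤ x e ^ n * t := by
      intro u n v h
      induction h with
      | nil u v h => rw [cycle_const (σ * α) y hyφ h]; simp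
      | cons u c v n m h hc hc' hm' _ ih =>
        intro t
        have e3 : y v * (y u)⁻¹ = y v * (y (α c))⁻¹ * (y c * (y (α c))⁻¹)⁻¹ := by
          rw [cycle_const (σ * α) y hyφ h]; group
        rw [e3, mul_assoc, pow_add, mul_assoc (x e ^ n)]
        refine (mul_le_mul_right (step_bound (I := ((x (α c))⁻¹ * x c)⁻¹) (hs c) (hr c)
          (by rw [inv_pow, inv_pow, hedge c hc hc']) (hcom c).symm.inv_inv hm' hμ
          (fun t => ?_) t) _).trans (ih _)
        have := stepV (α c) t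
        rwa [hm.invol, ← inv_inv (x (α c)), ← mul_inv_rev] at this
    have hI : ∀ t, ((x (α c))⁻¹ * x c)⁻¹ * t ≤ x e * t := fun t => by
      have := stepV (α c) t
      rwa [hm.invol, ← inv_inv (x (α c)), ← mul_inv_rev] at this
    refine count (V := (y c * (y (α c))⁻¹)⁻¹) (hs e) (hs c) (hr c) hc.symm hfill.symm hμ
      (Or.inl ?_) (key _ _ _ w1) (key _ _ _ w2) (by rw [inv_pow, inv_pow, hedge c hc1 hc2]) hI
      ((rat_cond (hs e) (hs c) hk).imp id fun h => ⟨h.1, ?_⟩)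
    · rw [hy0]; group
    · intro h4
      have h5 : x (α c) = x c * x e := by rw [← h4]; group
      have h6 : x (α c) = x e := le_antisymm (by simpa using bx2 (α c) 1)
        (by rw [h5]; exact bx1 _ _)
      have h7 : x c = 1 := by
        rw [h6] at h5
        simpa using h5
      have hc3 : α c ≠ e := fun h => hc2 (by rw [← h, hm.invol])
      have hc4 : α c ≠ α e := fun h => hc1 (α.injective h)
      exact h.2 (α c) hc3 hc4 (twin σ α hm.invol e (fun d => x d * 1) (fun d => (y d)⁻¹ * 1)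
        (fun d => by rw [hx]) (v1 1) (v2 1) (by simpa [hx0] using hμ 1)
        (fun d => by simpa [hx0] using bx1 d 1) (fun d => bx2 d 1) (α c) (by rw [h6])
        (by rw [hm.invol, h7, hx0]))

theorem not_lo {σ α : Equiv.Perm D} (hm : IsMap σ α) (e : D) (r s : D → ℕ) (hr : ∀ d, 0 < r d)
    (hs : ∀ d, 0 < s d) (hw : Short σ (σ * α) α e r s ∨ Short (σ * α) σ α e s r) :
    ¬ IsLeftOrderable (PresentedGroup (rels σ α e r s)) := by
  obtain ⟨R, hR⟩ : ∃ R, R = rels σ α e r s := ⟨_, rfl⟩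
  rw [← hR]
  rintro ⟨hnt, o, ho⟩
  letI := o
  haveI : MulLeftMono (PresentedGroup R) := ⟨fun f g h hgh => ho f g h hgh⟩
  let x : D → PresentedGroup R := fun d => PresentedGroup.mk R (gx d)
  let y : D → PresentedGroup R := fun d => PresentedGroup.mk R (gy d)
  have one : ∀ w ∈ rels σ α e r s, PresentedGroup.mk R w = 1 := fun w hw =>
    PresentedGroup.one_of_mem (hR ▸ hw)
  have hv : ∀ d, PresentedGroup.mk R (volt α d) = (x (α d))⁻¹ * x d := fun d => by
    rw [volt, map_mul, map_inv]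
  have hi : ∀ d, PresentedGroup.mk R (curr α d) = y d * (y (α d))⁻¹ := fun d => by
    rw [curr, map_mul, map_inv]
  have hx : ∀ d, x (σ d) = x d := fun d => by
    have := one _ (Or.inl ⟨d, rfl⟩)
    rwa [map_mul, map_inv, mul_inv_eq_one] at this
  have hy : ∀ d, y (σ (α d)) = y d := fun d => by
    have := one _ (Or.inr (Or.inl ⟨d, rfl⟩))
    rwa [map_mul, map_inv, mul_inv_eq_one] at this
  have hx0 : x (α e) = 1 := one _ (Or.inr (Or.inr (Or.inl rfl)))
  have hy0 : y (α e) = 1 := one _ (Or.inr (Or.inr (Or.inr (Or.inl rfl))))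
  have hcom : ∀ d, Commute ((x (α d))⁻¹ * x d) (y d * (y (α d))⁻¹) := fun d => by
    have := one _ (Or.inr (Or.inr (Or.inr (Or.inr (Or.inl ⟨d, rfl⟩)))))
    rwa [map_mul, map_inv, mul_inv_eq_one, map_mul, map_mul, hv, hi] at this
  have hedge : ∀ d, d ≠ e → d ≠ α e →
      ((x (α d))⁻¹ * x d) ^ r d = (y d * (y (α d))⁻¹) ^ s d := fun d h h' => by
    have := one _ (Or.inr (Or.inr (Or.inr (Or.inr (Or.inr (Or.inl ⟨d, h, h', rfl⟩))))))
    rwa [map_mul, map_inv, mul_inv_eq_one, map_pow, map_pow, hv, hi] at this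
  have hfill : x e ^ r e = (y e)⁻¹ ^ s e := by
    have := one _ (Or.inr (Or.inr (Or.inr (Or.inr (Or.inr (Or.inr rfl))))))
    rw [map_mul, map_pow, map_pow, hv, hi, hx0, hy0, inv_one, one_mul, mul_one] at this
    rw [inv_pow]
    exact eq_inv_of_mul_eq_one_left this
  have hgen : Subgroup.closure (Set.range x ∪ Set.range fun d => (y d)⁻¹) = ⊤ := by
    rw [eq_top_iff, ← PresentedGroup.closure_range_of R, Subgroup.closure_le]
    rintro g ⟨d | d, rfl⟩
    · exact Subgroup.subset_closure (Or.inl ⟨d, rfl⟩)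
    · have : (y d)⁻¹ ∈ Subgroup.closure (Set.range x ∪ Set.range fun d => (y d)⁻¹) :=
        Subgroup.subset_closure (Or.inr ⟨d, rfl⟩)
      exact (Subgroup.inv_mem_iff _).1 this
  rcases le_or_gt 1 (x e ^ r e) with hz | hz
  · exact core hm e r s hr hs x y hx hy hcom hedge hx0 hy0 hfill hgen
      (hz.eq_or_lt.imp Eq.symm id) hnt hw
  · exact core (G := (PresentedGroup R)ᵒᵈ) hm e r s hr hs x y hx hy hcom hedge hx0 hy0 hfill hgen
      (Or.inr hz) hnt hw

end Pool.Agent.H595Z.LO
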